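import Pool.Agent.Helper31.RRK.Genus
import Pool.Agent.Helper16.TW1

/-!
# Semilinear invariance of the genus, Frobenius, and the genus bound for function fields with a
non purely inseparable endomorphism
-/

set_option autoImplicit false
set_option linter.style.haveILetI false

namespace Pool.Agent.Helper31.RRK

open Polynomial IntermediateField Pool.Agent.Helper16 Pool.Agent.Helper33 Pool.Agent.Helper45.FF
open Pool.Agent.Helper45.S4 Pool.Agent.Helper47.RR

section semilinear

variable {k L k' L' : Type} [Field k] [Field L] [Algebra k L] [Field k'] [Field L'] [Algebra k' L']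

/-- Transport of a place along a semilinear isomorphism. -/
def plMap (τ : k ≃+* k') (e : L ≃+* L') (h : ∀ c, e (algebraMap k L c) = algebraMap k' L' (τ c))
    (v : Place k L) : Place k' L' where
  val := v.val.comap (e.symm : L' →+* L)
  surj := v.surj.comp e.symm.surjective
  triv := fun a ha => by
    obtain ⟨b, rfl⟩ := τ.surjective a
    have hb : b ≠ 0 := by
      rintro rfl
      simp at ha
    change v.val (e.symm (algebraMap k' L' (τ b))) = 1
    rw [← h, e.symm_apply_apply]
    exact v.triv b hb

theorem plMap_val (τ : k ≃+* k') (e : L ≃+* L')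
    (h : ∀ c, e (algebraMap k L c) = algebraMap k' L' (τ c)) (v : Place k L) (x : L') :
    (plMap τ e h v).val x = v.val (e.symm x) := rfl

theorem semilin_symm {τ : k ≃+* k'} {e : L ≃+* L'}
    (h : ∀ c, e (algebraMap k L c) = algebraMap k' L' (τ c)) (c : k') :
    e.symm (algebraMap k' L' c) = algebraMap k L (τ.symm c) := by
  rw [e.symm_apply_eq, h, τ.apply_symm_apply]

/-- Places correspond to places. -/
def plEquiv (τ : k ≃+* k') (e : L ≃+* L')
    (h : ∀ c, e (algebraMap k L c) = algebraMap k' L' (τ c)) : Place k L ≃ Place k' L' where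
  toFun := plMap τ e h
  invFun := plMap τ.symm e.symm (semilin_symm h)
  left_inv := fun v => by
    apply Place.ext_val
    ext x
    change v.val (e.symm (e x)) = v.val x
    rw [e.symm_apply_apply]
  right_inv := fun v => by
    apply Place.ext_val
    ext x
    change v.val (e (e.symm x)) = v.val x
    rw [e.apply_symm_apply]

theorem degD_equivMapDomain (f : Place k L ≃ Place k' L') (D : Dv k L) :
    degD (Finsupp.equivMapDomain f D : Dv k' L') = degD D := by
  unfold degD
  rw [Finsupp.sum_equivMapDomain]

theorem ell_equivMapDomain (τ : k ≃+* k') (e : L ≃+* L')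
    (h : ∀ c, e (algebraMap k L c) = algebraMap k' L' (τ c)) (D : Dv k L) :
    ell (Finsupp.equivMapDomain (plEquiv τ e h) D : Dv k' L') = ell D := by
  unfold ell
  have hmem : ∀ x : L, x ∈ Lsp D ↔
      e x ∈ Lsp (Finsupp.equivMapDomain (plEquiv τ e h) D : Dv k' L') := by
    intro x
    rw [mem_Lsp, mem_Lsp]
    constructor
    · intro hx w
      obtain ⟨v, rfl⟩ := (plEquiv τ e h).surjective w
      rw [Finsupp.equivMapDomain_apply, Equiv.symm_apply_apply]
      change v.val (e.symm (e x)) ≤ _
      rw [e.symm_apply_apply]
      exact hx v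
    · intro hx v
      have h1 := hx (plEquiv τ e h v)
      rw [Finsupp.equivMapDomain_apply, Equiv.symm_apply_apply] at h1
      change v.val (e.symm (e x)) ≤ _ at h1
      rwa [e.symm_apply_apply] at h1
  let j : Lsp D ≃+ Lsp (Finsupp.equivMapDomain (plEquiv τ e h) D : Dv k' L') :=
    { toFun := fun x => ⟨e x, (hmem x).1 x.2⟩
      invFun := fun y => ⟨e.symm y, by
        rw [hmem, e.apply_symm_apply]
        exact y.2⟩
      left_inv := fun x => Subtype.ext (e.symm_apply_apply _)
      right_inv := fun x => Subtype.ext (e.apply_symm_apply _)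
      map_add' := fun x y => Subtype.ext (map_add e _ _) }
  have h1 : Cardinal.lift.{0} (Module.rank k (Lsp D)) = Cardinal.lift.{0} (Module.rank k'
      (Lsp (Finsupp.equivMapDomain (plEquiv τ e h) D : Dv k' L'))) := by
    apply lift_rank_eq_of_equiv_equiv τ j τ.bijective
    intro c x
    apply Subtype.ext
    change e (c • (x : L)) = τ c • e (x : L)
    rw [Algebra.smul_def, Algebra.smul_def, map_mul, h]
  unfold Module.finrank
  rw [Cardinal.lift_id, Cardinal.lift_id] at h1
  rw [h1]

/-- **Semilinear invariance of the genus.** -/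
theorem genus_eq_of_semilinear (τ : k ≃+* k') (e : L ≃+* L')
    (h : ∀ c, e (algebraMap k L c) = algebraMap k' L' (τ c)) : genus k L = genus k' L' := by
  unfold genus
  congr 2
  ext n
  constructor
  · rintro ⟨D, rfl⟩
    refine ⟨Finsupp.equivMapDomain (plEquiv τ e h) D, ?_⟩
    change degD (Finsupp.equivMapDomain (plEquiv τ e h) D : Dv k' L') - ell _ = _
    rw [degD_equivMapDomain, ell_equivMapDomain]
  · rintro ⟨D, rfl⟩
    refine ⟨Finsupp.equivMapDomain (plEquiv τ.symm e.symm (semilin_symm h)) D, ?_⟩
    change degD (Finsupp.equivMapDomain _ D : Dv k L) - ell _ = _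
    rw [degD_equivMapDomain, ell_equivMapDomain]

theorem genus_eq_of_algEquiv {M : Type} [Field M] [Algebra k M] (e : L ≃ₐ[k] M) :
    genus k L = genus k M :=
  genus_eq_of_semilinear (RingEquiv.refl k) e.toRingEquiv (fun c => e.commutes c)

end semilinear

section frob

variable {k L : Type} [Field k] [Field L] [Algebra k L]

/-- The intermediate field of the `p ^ m`-th powers. -/
noncomputable def powField (k L : Type) [Field k] [Field L] [Algebra k L] [IsAlgClosed k] (p m : ℕ)
    [ExpChar k p] [ExpChar L p] : IntermediateField k L where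
  __ := (iterateFrobenius L p m).fieldRange
  algebraMap_mem' := fun c => by
    change algebraMap k L c ∈ (iterateFrobenius L p m).fieldRange
    rw [RingHom.mem_fieldRange]
    refine ⟨algebraMap k L ((iterateFrobeniusEquiv k p m).symm c), ?_⟩
    rw [← RingHom.map_iterateFrobenius]
    congr 1
    exact (iterateFrobeniusEquiv k p m).apply_symm_apply c

theorem mem_powField [IsAlgClosed k] (p m : ℕ) [ExpChar k p] [ExpChar L p] (x : L) :
    x ∈ powField k L p m ↔ ∃ y : L, y ^ p ^ m = x := by
  change x ∈ (iterateFrobenius L p m).fieldRange ↔ _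
  rw [RingHom.mem_fieldRange]
  rfl

theorem genus_powField [IsAlgClosed k] (p m : ℕ) [ExpChar k p] [ExpChar L p] :
    genus k L = genus k (powField k L p m) := by
  let f : L →+* powField k L p m := (iterateFrobenius L p m).codRestrict (powField k L p m)
    (fun x => (mem_powField p m _).2 ⟨x, rfl⟩)
  have hf : ∀ x, ((f x : powField k L p m) : L) = x ^ p ^ m := fun x => rfl
  have hbij : Function.Bijective f := by
    refine ⟨f.injective, ?_⟩
    rintro ⟨x, hx⟩
    obtain ⟨y, hy⟩ := (mem_powField p m _).1 hx
    exact ⟨y, Subtype.ext hy⟩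
  refine genus_eq_of_semilinear (iterateFrobeniusEquiv k p m) (RingEquiv.ofBijective f hbij) ?_
  intro c
  apply Subtype.ext
  change (algebraMap k L c) ^ p ^ m = algebraMap k L (c ^ p ^ m)
  rw [map_pow]

theorem finrank_powField_le [IsAlgClosed k] (hN : IsFunctionField k L) (p m : ℕ) [ExpChar k p]
    [ExpChar L p] : FiniteDimensional (powField k L p m) L ∧
      Module.finrank (powField k L p m) L ≤ p ^ m := by
  obtain ⟨t, ht, hs⟩ := exists_separating hN
  haveI : ExpChar (powField k L p m) p := expChar_of_injective_algebraMap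
    (algebraMap k (powField k L p m)).injective p
  haveI : IsPurelyInseparable (powField k L p m) L := by
    rw [isPurelyInseparable_iff_pow_mem _ p]
    intro x
    exact ⟨m, ⟨⟨x ^ p ^ m, (mem_powField p m _).2 ⟨x, rfl⟩⟩, rfl⟩⟩
  have hadj : (powField k L p m)⟮t⟯ = ⊤ := by
    rw [eq_top_iff]
    intro x _
    haveI h1 : IsPurelyInseparable (powField k L p m)⟮t⟯ L := inferInstance
    haveI h2 : Algebra.IsSeparable (powField k L p m)⟮t⟯ L := by
      have hle : k⟮t⟯ ≤ ((powField k L p m)⟮t⟯).restrictScalars k := by
        rw [adjoin_simple_le_iff]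
        exact mem_adjoin_simple_self _ t
      letI : Algebra k⟮t⟯ (powField k L p m)⟮t⟯ := (IntermediateField.inclusion hle).toAlgebra
      haveI : IsScalarTower k⟮t⟯ (powField k L p m)⟮t⟯ L :=
        IsScalarTower.of_algebraMap_eq (fun x => rfl)
      exact Algebra.isSeparable_tower_top_of_isSeparable k⟮t⟯ _ L
    obtain ⟨y, hy⟩ := IsPurelyInseparable.surjective_algebraMap_of_isSeparable
      (powField k L p m)⟮t⟯ L x
    rw [← hy]
    exact y.2
  let a : powField k L p m := ⟨t ^ p ^ m, (mem_powField p m _).2 ⟨t, rfl⟩⟩
  have hpm : p ^ m ≠ 0 := pow_ne_zero _ (expChar_pos k p).ne'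
  have hmon : (X ^ p ^ m - C a : (powField k L p m)[X]).Monic := monic_X_pow_sub_C a hpm
  have hroot : aeval t (X ^ p ^ m - C a : (powField k L p m)[X]) = 0 := by
    rw [map_sub, map_pow, aeval_X, aeval_C]
    exact sub_self _
  have hint : IsIntegral (powField k L p m) t := ⟨_, hmon, hroot⟩
  have h3 := adjoin.finrank hint
  have h4 : (minpoly (powField k L p m) t).natDegree ≤ p ^ m := by
    have := natDegree_le_of_dvd (minpoly.dvd _ t hroot) hmon.ne_zero
    rwa [natDegree_X_pow_sub_C] at this
  have h5 : Module.finrank (powField k L p m) L = (minpoly (powField k L p m) t).natDegree := by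
    rw [← h3, hadj]
    exact (IntermediateField.finrank_top').symm
  refine ⟨?_, h5 ▸ h4⟩
  apply FiniteDimensional.of_finrank_pos
  rw [h5]
  exact minpoly.natDegree_pos hint

/-- A subfield `E` with `L / E` purely inseparable is a field of powers. -/
theorem exists_eq_powField [IsAlgClosed k] (hN : IsFunctionField k L) (p : ℕ) [ExpChar k p]
    [ExpChar L p] (E : IntermediateField k L) [FiniteDimensional E L] [IsPurelyInseparable E L] :
    ∃ m, E = powField k L p m ∧ Module.finrank E L = p ^ m := by
  haveI : ExpChar E p := expChar_of_injective_algebraMap (algebraMap k E).injective p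
  obtain ⟨m, hm⟩ := IsPurelyInseparable.finrank_eq_pow E L p
  refine ⟨m, ?_, hm⟩
  obtain ⟨h1, h2⟩ := finrank_powField_le hN p m
  refine (eq_of_le_of_finrank_le' ?_ (h2.trans hm.ge)).symm
  intro x hx
  obtain ⟨y, rfl⟩ := (mem_powField p m _).1 hx
  obtain ⟨n, b, hb⟩ := IsPurelyInseparable.minpoly_eq_X_pow_sub_C E p y
  have h3 : y ^ p ^ n = algebraMap E L b := by
    have := minpoly.aeval E y
    rw [hb, map_sub, map_pow, aeval_X, aeval_C, sub_eq_zero] at this
    exact this
  have h4 : p ^ n ≤ p ^ m := by
    have := minpoly.natDegree_le (A := E) y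
    rwa [hb, natDegree_X_pow_sub_C, hm] at this
  have h5 : y ^ p ^ n ∈ E := by
    rw [h3]
    exact b.2
  by_cases hp : p = 1
  · subst hp
    simpa using h5
  · have hp2 : 1 < p := by
      have := expChar_pos k p
      omega
    have h6 : n ≤ m := (Nat.pow_le_pow_iff_right hp2).1 h4
    have h7 : y ^ p ^ m = (y ^ p ^ n) ^ p ^ (m - n) := by
      rw [← pow_mul, ← pow_add, Nat.add_sub_cancel' h6]
    rw [h7]
    exact pow_mem h5 _

/-- The genus of `E` when `L / E` is purely inseparable. -/
theorem genus_eq_of_isPurelyInseparable [IsAlgClosed k] (hN : IsFunctionField k L)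
    (E : IntermediateField k L) [FiniteDimensional E L] [IsPurelyInseparable E L] :
    genus k E = genus k L := by
  obtain ⟨p, hp⟩ := ExpChar.exists k
  haveI : ExpChar L p := expChar_of_injective_algebraMap (algebraMap k L).injective p
  obtain ⟨m, rfl, -⟩ := exists_eq_powField hN p E
  exact (genus_powField p m).symm

end frob

section bound

variable {k L : Type} [Field k] [Field L] [Algebra k L]

/-- The range of an endomorphism of a function field has finite index. -/
theorem finiteDimensional_fieldRange [IsAlgClosed k] (hN : IsFunctionField k L) {M : Type}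
    [Field M] [Algebra k M] (hM : IsFunctionField k M) (φ : L →ₐ[k] M) :
    FiniteDimensional φ.fieldRange M := by
  obtain ⟨t, ht, -⟩ := exists_separating hN
  have ht' : Transcendental k (φ t) := by
    intro h
    exact ht ((isAlgebraic_algHom_iff φ φ.injective).1 h)
  haveI := finiteDimensional_adjoin hM (φ t) ht'
  have hle : k⟮φ t⟯ ≤ φ.fieldRange := by
    rw [adjoin_simple_le_iff]
    exact ⟨t, rfl⟩
  letI : Algebra k⟮φ t⟯ φ.fieldRange := (IntermediateField.inclusion hle).toAlgebra
  haveI : IsScalarTower k⟮φ t⟯ φ.fieldRange M := IsScalarTower.of_algebraMap_eq (fun x => rfl)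
  exact FiniteDimensional.right k⟮φ t⟯ φ.fieldRange M

theorem isFunctionField_fieldRange (hN : IsFunctionField k L) {M : Type}
    [Field M] [Algebra k M] (φ : L →ₐ[k] M) : IsFunctionField k φ.fieldRange := by
  have e : L ≃ₐ[k] φ.fieldRange := AlgEquiv.ofInjectiveField φ
  refine ⟨?_, ?_⟩
  · haveI := hN.1
    exact Algebra.EssFiniteType.of_surjective e.toAlgHom e.surjective
  · rw [← hN.2]
    exact (e.trdeg_eq).symm

/-- **Genus bound.** A function field over an algebraically closed field with an endomorphism which
is not purely inseparable has genus at most one. -/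
theorem genus_le_one_of_endo [IsAlgClosed k] (hN : IsFunctionField k L) (φ : L →ₐ[k] L)
    (hφ : ¬ IsPurelyInseparable φ.fieldRange L) : genus k L ≤ 1 := by
  haveI := finiteDimensional_fieldRange hN hN φ
  have hR := isFunctionField_fieldRange hN φ
  let E := separableClosure φ.fieldRange L
  haveI : FiniteDimensional φ.fieldRange E := inferInstance
  haveI : Algebra.IsSeparable φ.fieldRange E := inferInstance
  haveI hins : IsPurelyInseparable E L := separableClosure.isPurelyInseparable _ _
  haveI : FiniteDimensional E L := inferInstance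
  have hE : IsFunctionField k E := hR.of_finite
  have h1 : genus k E = genus k L := by
    let E' : IntermediateField k L := E.restrictScalars k
    haveI : FiniteDimensional E' L := ‹FiniteDimensional E L›
    haveI : IsPurelyInseparable E' L := hins
    exact genus_eq_of_isPurelyInseparable hN E'
  have h2 : genus k L = genus k φ.fieldRange := genus_eq_of_algEquiv (AlgEquiv.ofInjectiveField φ)
  have h3 : 2 ≤ Module.finrank φ.fieldRange E := by
    by_contra hcon
    have h4 : 0 < Module.finrank φ.fieldRange E := Module.finrank_pos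
    have h5 : Module.finrank φ.fieldRange E = 1 := by omega
    apply hφ
    rw [← separableClosure.eq_bot_iff]
    exact IntermediateField.finrank_eq_one_iff.1 h5
  have h4 := hurwitz_le hR hE
  rw [cdeg_eq hR, cdeg_eq hE, h1, ← h2] at h4
  have h5 : (2 : ℤ) ≤ Module.finrank φ.fieldRange E := by exact_mod_cast h3
  by_contra hcon
  nlinarith

/-- The same with the separable degree. -/
theorem genus_le_one_of_finSepDegree [IsAlgClosed k] (hN : IsFunctionField k L) (φ : L →ₐ[k] L)
    (hφ : 2 ≤ Field.finSepDegree φ.fieldRange L) : genus k L ≤ 1 := by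
  apply genus_le_one_of_endo hN φ
  intro h
  have := h.finSepDegree_eq_one
  omega

end bound

end Pool.Agent.Helper31.RRK
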