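import Pool.Agent.Helper31.RRK.Diff
import Pool.Agent.Helper47.RR.B3

/-!
# The divisor of the cotrace; the exact Hurwitz formula for the genus; `cdeg = 2g - 2`
-/

set_option autoImplicit false
set_option linter.style.haveILetI false
set_option linter.unusedSectionVars false

namespace Pool.Agent.Helper31.RRK

open Polynomial IntermediateField Pool.Agent.Helper16 Pool.Agent.Helper33 Pool.Agent.Helper45.FF
open Pool.Agent.Helper45.S4 Pool.Agent.Helper47.RR

variable {k L M : Type} [Field k] [Field L] [Field M] [Algebra k L] [Algebra k M] [Algebra L M]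
  [IsScalarTower k L M]

variable [IsAlgClosed k] (hN : IsFunctionField k L) [FiniteDimensional L M]

section dual

variable [Algebra.IsSeparable L M] (hM : IsFunctionField k M)
    {D : Derivation k L L} (hD : D ≠ 0)
    {D' : Derivation k M M} (h : ∀ x : L, D' (algebraMap L M x) = algebraMap L M (D x))

include hM hD h

/-- The trace dual in terms of the different exponents. -/
theorem dual_iff_one (v : Place k L) (y : M) :
    (∀ z : M, (∀ w : Place k M, resPl hN w = v → w.val z ≤ 1) →
      v.val (Algebra.trace L M (y * z)) ≤ 1) ↔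
    ∀ w : Place k M, resPl hN w = v →
      w.val y ≤ WithZero.exp (ram hN w * ordDer (resPl hN w) D - ordDer w D') := by
  obtain ⟨x, c, hx⟩ := exists_locGen (M := M) hN v
  rw [hx.trace_dual]
  refine forall_congr' fun w => imp_congr_right fun hw => ?_
  have hf0 : aeval x (derivative (minpoly L x)) ≠ 0 :=
    (Algebra.IsSeparable.isSeparable L x).aeval_derivative_ne_zero (minpoly.aeval L x)
  have h1 := hx.ord_derivative hM hD h hw
  rw [map_mul, val_eq_exp_of_ord hf0 h1, WithZero.exp_neg,
    inv_mul_le_one₀ (by simp [zero_lt_iff]), hw]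

theorem dual_iff (v : Place k L) (m : ℤ) (y : M) :
    (∀ z : M, (∀ w : Place k M, resPl hN w = v → w.val z ≤ 1) →
      v.val (Algebra.trace L M (y * z)) ≤ WithZero.exp m) ↔
    ∀ w : Place k M, resPl hN w = v →
      w.val y ≤ WithZero.exp (ram hN w * m +
        (ram hN w * ordDer (resPl hN w) D - ordDer w D')) := by
  obtain ⟨π, hπ0, hπ⟩ := v.exists_uniformizer
  have hvπm : v.val (π ^ m) = WithZero.exp (-m) := by
    rw [map_zpow₀, hπ, ← WithZero.exp_zsmul]
    simp
  have hwπm : ∀ w : Place k M, resPl hN w = v →
      w.val (algebraMap L M (π ^ m)) = WithZero.exp (-((ram hN w : ℤ) * m)) := by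
    intro w hw
    rw [val_algebraMap_eq hN, hw, hvπm, ← WithZero.exp_nsmul]
    congr 1
    simp
  have key := dual_iff_one hN hM hD h v (algebraMap L M (π ^ m) * y)
  have h1 : (∀ z : M, (∀ w : Place k M, resPl hN w = v → w.val z ≤ 1) →
      v.val (Algebra.trace L M (algebraMap L M (π ^ m) * y * z)) ≤ 1) ↔
      ∀ z : M, (∀ w : Place k M, resPl hN w = v → w.val z ≤ 1) →
      v.val (Algebra.trace L M (y * z)) ≤ WithZero.exp m := by
    refine forall_congr' fun z => imp_congr_right fun _ => ?_
    rw [mul_assoc, ← Algebra.smul_def, map_smul, smul_eq_mul, map_mul, hvπm, WithZero.exp_neg,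
      inv_mul_le_one₀ (by simp [zero_lt_iff])]
  rw [← h1, key]
  refine forall_congr' fun w => imp_congr_right fun hw => ?_
  rw [map_mul, hwπm w hw, WithZero.exp_neg, WithZero.exp_add,
    inv_mul_le_iff₀ (by simp [zero_lt_iff])]

end dual

section cotrace

variable (W : Dv k L)

/-- The cotrace of a Weil differential, with its characterisation. -/
theorem exists_cotrace' [Algebra.IsSeparable L M]
    {ω : Ad k L →ₗ[k] k} (hω : ω ∈ Om W) (hω0 : ω ≠ 0) :
    ∃ ω' : Ad k M →ₗ[k] k, ω' ∈ Om (Con hN W) ∧ ω' ≠ 0 ∧
      ∀ (α : Ad k M) (b : Place k L → M), Rel hN W (α : Place k M → M) b →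
      ∀ (h2 : (fun v => Algebra.trace L M (b v)) ∈ Ad k L), ω' α = ω ⟨_, h2⟩ := by
  have hM : IsFunctionField k M := isFunctionField_ext hN
  have hWA : ∀ (S : Finset (Place k M)) (a : Place k M → M) (n : ℤ),
      ∃ x : M, ∀ w ∈ S, w.val (x - a w) ≤ WithZero.exp n := fun S a n => weak_approx hM S a n
  have hTr : ∀ (v : Place k L) (m : ℤ) (x : M),
      (∀ w : Place k M, resPl hN w = v → w.val x ≤ WithZero.exp ((ram hN w : ℤ) * m)) →
      v.val (Algebra.trace L M x) ≤ WithZero.exp m := fun v m x hx => trace_val hN v m x hx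
  have hex : ∀ α : Place k M → M, ∃ b : Place k L → M, Rel hN W α b := exists_rel hN W hWA
  choose B hB using hex
  have hmem : ∀ α : Ad k M, (fun v => Algebra.trace L M (B α v)) ∈ Ad k L := fun α =>
    trace_mem_Ad hN W hTr α.2 (hB α)
  -- the value only depends on the relation
  have key : ∀ (α : Ad k M) (b : Place k L → M) (hb : Rel hN W α b)
      (h2 : (fun v => Algebra.trace L M (b v)) ∈ Ad k L),
      ω ⟨_, hmem α⟩ = ω ⟨_, h2⟩ := fun α b hb h2 => Rel.wd hN W hTr hω (hB α) hb _ _
  let ω' : Ad k M →ₗ[k] k :=
    { toFun := fun α => ω ⟨_, hmem α⟩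
      map_add' := by
        intro α α'
        have h1 : (fun v => Algebra.trace L M ((B α + B α') v)) ∈ Ad k L := by
          have := (Ad k L).add_mem (hmem α) (hmem α')
          have h0 : (fun v => Algebra.trace L M ((B α + B α') v)) =
              (fun v => Algebra.trace L M (B α v)) + (fun v => Algebra.trace L M (B α' v)) := by
            funext v
            simp
          rw [h0]
          exact this
        rw [key (α + α') _ (Rel.add hN W (hB α) (hB α')) h1, ← map_add]
        congr 1
        apply Subtype.ext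
        funext v
        simp
      map_smul' := by
        intro c α
        have hsm : ∀ v, Algebra.trace L M ((c • B α) v) = c • Algebra.trace L M (B α v) := by
          intro v
          rw [Pi.smul_apply, ← algebraMap_smul L c (B α v), map_smul, algebraMap_smul]
        have h1 : (fun v => Algebra.trace L M ((c • B α) v)) ∈ Ad k L := by
          have := (Ad k L).smul_mem c (hmem α)
          have h0 : (fun v => Algebra.trace L M ((c • B α) v)) =
              c • (fun v => Algebra.trace L M (B α v)) := by
            funext v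
            rw [hsm]
            rfl
          rw [h0]
          exact this
        rw [key (c • α) _ (Rel.smul hN W c (hB α)) h1, RingHom.id_apply, ← map_smul]
        congr 1
        apply Subtype.ext
        funext v
        exact hsm v }
  have hω' : ∀ (α : Ad k M) (b : Place k L → M) (hb : Rel hN W α b)
      (h2 : (fun v => Algebra.trace L M (b v)) ∈ Ad k L), ω' α = ω ⟨_, h2⟩ := key
  refine ⟨ω', ⟨?_, ?_⟩, ?_, hω'⟩
  · intro α hα
    have hr : Rel hN W (α : Place k M → M) 0 := by
      intro w
      have := hα w
      rw [Con_apply] at this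
      simpa using this
    have h1 : (fun v : Place k L => Algebra.trace L M ((0 : Place k L → M) v)) ∈ Ad k L :=
      trace_mem_Ad hN W hTr α.2 hr
    rw [hω' α 0 hr h1]
    have : (⟨fun v : Place k L => Algebra.trace L M ((0 : Place k L → M) v), h1⟩ : Ad k L) = 0 := by
      apply Subtype.ext
      funext v
      simp
    rw [this, map_zero]
  · intro α x hx
    have hr : Rel hN W (α : Place k M → M) (fun _ => x) := by
      intro w
      rw [hx w, sub_self, map_zero]
      exact zero_le
    have h1 : (fun v : Place k L => Algebra.trace L M ((fun _ => x : Place k L → M) v)) ∈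
        Ad k L := trace_mem_Ad hN W hTr α.2 hr
    rw [hω' α _ hr h1]
    exact hω.2 _ (Algebra.trace L M x) (fun v => rfl)
  · intro h0
    apply hω0
    ext a
    obtain ⟨y, hy⟩ := Algebra.trace_surjective L M 1
    -- the pre-adele `a y`
    have hα : (fun w : Place k M => algebraMap L M ((a : Place k L → L) (resPl hN w)) * y) ∈
        Ad k M := by
      classical
      obtain ⟨S, hS⟩ : ∃ S : Finset (Place k M), ∀ w : Place k M, ¬ w.val y ≤ 1 → w ∈ S := by
        obtain ⟨S, h1, -⟩ := hM.product_formula y
        refine ⟨S, fun w hw => (h1 w).2 ?_⟩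
        intro h2
        apply hw
        by_cases hy0 : y = 0
        · rw [hy0, map_zero]; exact zero_le
        · exact ((w.ord_eq_zero_iff hy0).1 h2).le
      have ha : {v : Place k L | ¬ v.val ((a : Place k L → L) v) ≤ 1}.Finite := a.2
      refine ((S ∪ ha.toFinset.biUnion fun v => fib (M := M) hN v).finite_toSet).subset ?_
      intro w hw
      rw [Finset.mem_coe, Finset.mem_union]
      by_contra hcon
      rw [not_or] at hcon
      obtain ⟨h1, h2⟩ := hcon
      apply hw
      have h3 : w.val y ≤ 1 := by
        by_contra hne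
        exact h1 (hS w hne)
      have h4 : (resPl hN w).val ((a : Place k L → L) (resPl hN w)) ≤ 1 := by
        by_contra hne
        apply h2
        rw [Finset.mem_biUnion]
        exact ⟨resPl hN w, ha.mem_toFinset.2 hne, (mem_fib hN _ w).2 rfl⟩
      have h5 := val_algebraMap_le_one hN (w := w) rfl h4
      rw [map_mul]
      exact mul_le_one' h5 h3
    have hr : Rel hN W (fun w : Place k M =>
        algebraMap L M ((a : Place k L → L) (resPl hN w)) * y)
        (fun v => algebraMap L M ((a : Place k L → L) v) * y) := by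
      intro w
      rw [sub_self, map_zero]
      exact zero_le
    have h1 := trace_mem_Ad hN W hTr hα hr
    have h2 := hω' ⟨_, hα⟩ _ hr h1
    rw [h0, LinearMap.zero_apply] at h2
    rw [LinearMap.zero_apply, h2]
    congr 1
    apply Subtype.ext
    funext v
    change (a : Place k L → L) v = Algebra.trace L M (algebraMap L M ((a : Place k L → L) v) * y)
    rw [← Algebra.smul_def, map_smul, hy, smul_eq_mul, mul_one]

end cotrace

section isdiv

variable [Algebra.IsSeparable L M] (hM : IsFunctionField k M)
    {D : Derivation k L L} (hD : D ≠ 0)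
    {D' : Derivation k M M} (h : ∀ x : L, D' (algebraMap L M x) = algebraMap L M (D x))

include hM hD h

/-- **The divisor of the cotrace.** -/
theorem isDiv_cotrace {d : Dv k M}
    (hd : ∀ w, d w = ram hN w * ordDer (resPl hN w) D - ordDer w D')
    {ω : Ad k L →ₗ[k] k} {W : Dv k L} (hω0 : ω ≠ 0) (hW : IsDiv ω W) :
    ∃ ω' : Ad k M →ₗ[k] k, ω' ≠ 0 ∧ IsDiv ω' (Con hN W + d) := by
  classical
  have hω : ω ∈ Om W := (hW W).2 le_rfl
  have hTr : ∀ (v : Place k L) (m : ℤ) (x : M),
      (∀ w : Place k M, resPl hN w = v → w.val x ≤ WithZero.exp ((ram hN w : ℤ) * m)) →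
      v.val (Algebra.trace L M x) ≤ WithZero.exp m := fun v m x hx => trace_val hN v m x hx
  have hWA : ∀ (S : Finset (Place k M)) (a : Place k M → M) (n : ℤ),
      ∃ x : M, ∀ w ∈ S, w.val (x - a w) ≤ WithZero.exp n := fun S a n => weak_approx hM S a n
  obtain ⟨ω', h1, h2, h3⟩ := exists_cotrace' (M := M) hN W hω hω0
  have hd0 : ∀ w, 0 ≤ d w := by
    intro w
    have := (ram_le hN hM hD h w).1
    have := ram_pos hN w
    rw [hd]
    omega
  have hmem : ω' ∈ Om (Con hN W + d) := by
    refine ⟨fun α hα => ?_, h1.2⟩
    obtain ⟨b, hb⟩ := exists_rel hN W hWA (α : Place k M → M)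
    rw [h3 α b hb (trace_mem_Ad hN W hTr α.2 hb)]
    apply hω.1
    intro v
    have key := (dual_iff hN hM hD h v (W v) (b v)).2 (by
      intro w hw
      have h4 := hb w
      have h5 := hα w
      rw [Finsupp.add_apply, Con_apply, hw] at h5
      rw [hw] at h4
      have h6 : b v = (b v - (α : Place k M → M) w) + (α : Place k M → M) w := by ring
      rw [h6, ← hd]
      refine (w.val.map_add _ _).trans (max_le ?_ h5)
      refine h4.trans ?_
      rw [WithZero.exp_le_exp]
      have := hd0 w
      omega) 1 (fun w _ => by rw [map_one])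
    rwa [mul_one] at key
  refine ⟨ω', h2, fun E => ⟨fun hE => ?_, fun hE => Om_anti hE hmem⟩⟩
  -- maximality
  by_contra hcon
  obtain ⟨w0, hw0⟩ : ∃ w0, (Con hN W + d : Dv k M) w0 < E w0 := by
    by_contra hno
    push Not at hno
    exact hcon hno
  set v0 := resPl hN w0 with hv0
  set E' : Dv k M := Con hN W + d + Finsupp.single w0 1 with hE'
  have hE'mem : ω' ∈ Om E' := by
    refine Om_anti ?_ (Om_sup hE hmem)
    intro w
    rw [Finsupp.sup_apply, hE', Finsupp.add_apply, Finsupp.single_apply]
    split_ifs with hw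
    · subst hw
      exact le_sup_of_le_left (by omega)
    · rw [add_zero]
      exact le_sup_right
  -- an element violating the dual condition
  choose y hy using fun w : Place k M => w.surj (WithZero.exp (E' w))
  obtain ⟨m, hm⟩ : ∃ m : ℤ, ∀ w ∈ fib (M := M) hN v0, m < E' w := by
    have hb : BddBelow ((fun w => E' w) ''
        ((fib (M := M) hN v0 : Finset (Place k M)) : Set (Place k M))) :=
      ((fib (M := M) hN v0).finite_toSet.image _).bddBelow
    obtain ⟨n, hn⟩ := hb
    exact ⟨n - 1, fun w hw => by have := hn ⟨w, hw, rfl⟩; simp only at this; omega⟩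
  obtain ⟨y0, hy0⟩ := hWA (fib (M := M) hN v0) y m
  have hy0v : ∀ w, resPl hN w = v0 → w.val y0 = WithZero.exp (E' w) := by
    intro w hw
    have hwf := (mem_fib hN v0 w).2 hw
    have h4 : y0 = y w + (y0 - y w) := by ring
    rw [h4, Valuation.map_add_eq_of_lt_left, hy]
    rw [hy]
    exact (hy0 w hwf).trans_lt (WithZero.exp_lt_exp.2 (hm w hwf))
  have hnot : ¬ ∀ z : M, (∀ w : Place k M, resPl hN w = v0 → w.val z ≤ 1) →
      v0.val (Algebra.trace L M (y0 * z)) ≤ WithZero.exp (W v0) := by
    rw [dual_iff hN hM hD h v0 (W v0) y0]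
    intro hall
    have h4 := hall w0 rfl
    rw [hy0v w0 rfl, ← hd, WithZero.exp_le_exp, hE', Finsupp.add_apply, Finsupp.add_apply,
      Con_apply, Finsupp.single_eq_same, ← hv0] at h4
    omega
  push Not at hnot
  obtain ⟨z, hz1, hz2⟩ := hnot
  set τ := Algebra.trace L M (y0 * z) with hτ
  have hτ0 : τ ≠ 0 := by
    intro h0
    rw [h0, map_zero] at hz2
    exact absurd hz2 (not_lt.2 zero_le)
  have hτv : v0.ord τ ≤ - W v0 - 1 := by
    have := (val_exp_lt_iff v0 τ hτ0 (W v0)).1 hz2
    omega
  -- `ω` vanishes on a bigger space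
  have hbig : ω ∈ Om (W + Finsupp.single v0 1) := by
    refine ⟨fun a ha => ?_, hω.2⟩
    set a0 := (a : Place k L → L) v0 with ha0
    -- the part at `v0`
    have hs_mem : (Pi.single v0 a0 : Place k L → L) ∈ Ad k L := by
      refine (Set.finite_singleton v0).subset ?_
      intro v hv
      by_contra hne
      apply hv
      rw [Pi.single_eq_of_ne hne, map_zero]
      exact zero_le
    have hsplit : ω a = ω ⟨_, hs_mem⟩ := by
      rw [← sub_eq_zero, ← map_sub]
      apply hω.1
      intro v
      change v.val ((a : Place k L → L) v - (Pi.single v0 a0 : Place k L → L) v) ≤ _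
      by_cases hv : v = v0
      · subst hv
        rw [Pi.single_eq_same, sub_self, map_zero]
        exact zero_le
      · rw [Pi.single_eq_of_ne hv, sub_zero]
        have := ha v
        rw [Finsupp.add_apply, Finsupp.single_eq_of_ne hv, add_zero] at this
        exact this
    rw [hsplit]
    -- lift to `M`
    set c := a0 / τ with hc
    have hcv : v0.val c ≤ 1 := by
      by_cases h0 : a0 = 0
      · rw [hc, h0, zero_div, map_zero]; exact zero_le
      · have h4 := ha v0
        rw [Finsupp.add_apply, Finsupp.single_eq_same, ← ha0, val_le_exp_iff v0 _ h0] at h4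
        have hc0 : c ≠ 0 := div_ne_zero h0 hτ0
        rw [← v0.ord_nonneg_iff hc0, hc, div_eq_mul_inv, v0.ord_mul h0 (inv_ne_zero hτ0),
          v0.ord_inv]
        omega
    set β : M := algebraMap L M c * (y0 * z) with hβ
    have hβτ : Algebra.trace L M β = a0 := by
      rw [hβ, ← Algebra.smul_def, map_smul, ← hτ, smul_eq_mul, hc]
      field_simp
    let b : Place k L → M := Pi.single v0 β
    let α : Place k M → M := fun w => b (resPl hN w)
    have hαE : α ∈ AdD E' := by
      intro w
      by_cases hw : resPl hN w = v0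
      · change w.val ((Pi.single v0 β : Place k L → M) (resPl hN w)) ≤ _
        rw [hw, Pi.single_eq_same, hβ, map_mul, map_mul, hy0v w hw]
        calc w.val (algebraMap L M c) * (WithZero.exp (E' w) * w.val z)
            ≤ 1 * (WithZero.exp (E' w) * 1) := by
              refine mul_le_mul' (val_algebraMap_le_one hN hw hcv) ?_
              exact mul_le_mul_right (hz1 w hw) _
          _ = _ := by rw [one_mul, mul_one]
      · change w.val ((Pi.single v0 β : Place k L → M) (resPl hN w)) ≤ _
        rw [Pi.single_eq_of_ne hw, map_zero]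
        exact zero_le
    have hαmem : α ∈ Ad k M := AdD_le_Ad E' hαE
    have hrel : Rel hN W α b := by
      intro w
      change w.val (b (resPl hN w) - b (resPl hN w)) ≤ _
      rw [sub_self, map_zero]
      exact zero_le
    have h5 := h3 ⟨α, hαmem⟩ b hrel (trace_mem_Ad hN W hTr hαmem hrel)
    rw [hE'mem.1 ⟨α, hαmem⟩ hαE] at h5
    rw [h5]
    congr 1
    apply Subtype.ext
    funext v
    change (Pi.single v0 a0 : Place k L → L) v =
      Algebra.trace L M ((Pi.single v0 β : Place k L → M) v)
    by_cases hv : v = v0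
    · subst hv
      rw [Pi.single_eq_same, Pi.single_eq_same, hβτ]
    · rw [Pi.single_eq_of_ne hv, Pi.single_eq_of_ne hv, map_zero]
  have h6 := (hW _).1 hbig v0
  rw [Finsupp.add_apply, Finsupp.single_eq_same] at h6
  omega

/-- **The exact Hurwitz formula for the genus.** -/
theorem genus_hurwitz_aux {d : Dv k M}
    (hd : ∀ w, d w = ram hN w * ordDer (resPl hN w) D - ordDer w D') :
    2 * genus k M - 2 = Module.finrank L M * (2 * genus k L - 2) + degD d := by
  obtain ⟨A, ω, hA, hω0⟩ := exists_ne_zero_Om hN
  obtain ⟨W, hW⟩ := exists_isDiv hN hA hω0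
  obtain ⟨ω', h0', hW'⟩ := isDiv_cotrace hN hM hD h hd hω0 hW
  rw [← degD_isDiv hM h0' hW', ← degD_isDiv hN hω0 hW, ← degD_Con (M := M) hN W, degD_add']

end isdiv

end Pool.Agent.Helper31.RRK
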