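import Pool.Agent.Helper31.RRK.Loc

/-!
# The different: derivations and the trace dual
-/

set_option autoImplicit false
set_option linter.style.haveILetI false
set_option linter.unusedSectionVars false

namespace Pool.Agent.Helper31.RRK

open Polynomial IntermediateField Pool.Agent.Helper16 Pool.Agent.Helper33 Pool.Agent.Helper45.FF
open Pool.Agent.Helper45.S4 Pool.Agent.Helper47.RR
open scoped Pointwise

variable {k L M : Type} [Field k] [Field L] [Field M] [Algebra k L] [Algebra k M] [Algebra L M]
  [IsScalarTower k L M]

theorem D_aeval (D : Derivation k L L) (D' : Derivation k M M)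
    (h : ∀ x : L, D' (algebraMap L M x) = algebraMap L M (D x)) (x : M) (Q : L[X]) :
    D' (aeval x Q) = Q.sum (fun i a => algebraMap L M (D a) * x ^ i) +
      aeval x (derivative Q) * D' x := by
  induction Q using Polynomial.induction_on' with
  | add p q hp hq =>
    rw [map_add, map_add, hp, hq, sum_add_index, derivative_add, map_add]
    · ring
    · intro i; simp
    · intro i a b; rw [map_add, map_add]; ring
  | monomial n a =>
    rw [aeval_monomial, sum_monomial_index, Derivation.leibniz, Derivation.leibniz_pow, h,
      derivative_monomial, aeval_monomial]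
    · simp only [smul_eq_mul, nsmul_eq_mul, map_mul, _root_.map_natCast]
      ring
    · simp

variable [IsAlgClosed k] {hN : IsFunctionField k L} [FiniteDimensional L M]

namespace LocGen

variable {v : Place k L} {x : M} {c : Place k M → k} (hx : LocGen hN v x c)

include hx

/-- **The different exponent** is the order of `f'(x)`. -/
theorem ord_derivative (hM : IsFunctionField k M) [Algebra.IsSeparable L M]
    {D : Derivation k L L} (hD : D ≠ 0)
    {D' : Derivation k M M} (h : ∀ x : L, D' (algebraMap L M x) = algebraMap L M (D x))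
    {w : Place k M} (hw : resPl hN w = v) :
    w.ord (aeval x (derivative (minpoly L x))) = ram hN w * ordDer v D - ordDer w D' := by
  obtain ⟨π, hπ0, hπ⟩ := v.exists_uniformizer
  have hDπ := D_pi_ne_zero v D hN hD hπ
  have hD' := ne_zero_of_ext hD h
  set f := minpoly L x with hf
  set P := Pi hN v c with hP
  set g : L[X] := f - P.map (algebraMap k L) with hg
  set q : L[X] := C π⁻¹ * g with hq
  have hgv : ∀ i, v.val (g.coeff i) ≤ WithZero.exp (-1 : ℤ) := hx.minpoly_sub_Pi
  have hqv : ∀ i, v.val (q.coeff i) ≤ 1 := by
    intro i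
    rw [hq, coeff_C_mul, map_mul, map_inv₀, hπ]
    exact (inv_mul_le_one₀ (zero_lt_iff.2 WithZero.exp_ne_zero)).2 (hgv i)
  have hgq : g = C π * q := by
    rw [hq, ← mul_assoc, ← C_mul, mul_inv_cancel₀ hπ0, C_1, one_mul]
  have hfq : f = P.map (algebraMap k L) + C π * q := by
    rw [← hgq, hg]; ring
  have hwπ : w.val (algebraMap L M π) = WithZero.exp (-(ram hN w : ℤ)) := by
    rw [val_algebraMap_eq hN, hw, hπ, ← WithZero.exp_nsmul]
    simp
  have hπM : algebraMap L M π ≠ 0 := by simpa using hπ0
  -- value of `q(x)`
  have hfx : aeval x P + algebraMap L M π * aeval x q = 0 := by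
    have h1 : aeval x f = 0 := minpoly.aeval L x
    rw [hfq, map_add, aeval_map_algebraMap, map_mul, aeval_C] at h1
    exact h1
  have hqx : w.val (aeval x q) = 1 := by
    have h1 : algebraMap L M π * aeval x q = - aeval x P := by linear_combination hfx
    have h2 := congrArg w.val h1
    rw [map_mul, Valuation.map_neg, hx.val_Pi hw, hwπ] at h2
    exact mul_left_cancel₀ WithZero.exp_ne_zero (h2.trans (mul_one _).symm)
  set H : M := q.sum (fun i a => algebraMap L M (D a) * x ^ i) with hH
  have hHv : w.val H ≤ w.val (algebraMap L M (D π)) := by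
    rw [hH, Polynomial.sum_def]
    apply Valuation.map_sum_le
    intro i _
    rw [map_mul, map_pow]
    calc w.val (algebraMap L M (D (q.coeff i))) * w.val x ^ i
        ≤ w.val (algebraMap L M (D π)) * 1 := by
          refine mul_le_mul' ?_ (pow_le_one' (hx.val_x_le hw) i)
          rw [val_algebraMap_eq hN, val_algebraMap_eq hN, hw]
          exact pow_le_pow_left' (val_D_le_pi' v D hN hπ (hqv i)) _
      _ = _ := mul_one _
  have hmain : aeval x (derivative f) * D' x =
      -(algebraMap L M (D π) * aeval x q + algebraMap L M π * H) := by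
    have h1 : D' (aeval x P + algebraMap L M π * aeval x q) = 0 := by rw [hfx, map_zero]
    rw [map_add, Derivation.map_aeval, Derivation.leibniz, h, D_aeval D D' h x q, smul_eq_mul,
      smul_eq_mul, smul_eq_mul, ← hH] at h1
    have h2 : aeval x (derivative f) = aeval x (derivative P) +
        algebraMap L M π * aeval x (derivative q) := by
      rw [hfq, derivative_add, derivative_C_mul, derivative_map, map_add, map_mul, aeval_C,
        aeval_map_algebraMap]
    rw [h2]
    linear_combination h1
  have hval : w.val (aeval x (derivative f) * D' x) = w.val (algebraMap L M (D π)) := by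
    have h0 : w.val (algebraMap L M (D π)) ≠ 0 := by simpa using hDπ
    rw [hmain, Valuation.map_neg, Valuation.map_add_eq_of_lt_left, map_mul, hqx, mul_one]
    rw [map_mul, map_mul, hqx, mul_one, hwπ]
    calc WithZero.exp (-(ram hN w : ℤ)) * w.val H
        ≤ WithZero.exp (-(ram hN w : ℤ)) * w.val (algebraMap L M (D π)) := mul_le_mul_right hHv _
      _ < 1 * w.val (algebraMap L M (D π)) := by
          refine mul_lt_mul_of_pos_right ?_ (zero_lt_iff.2 h0)
          rw [← WithZero.exp_zero, WithZero.exp_lt_exp]
          have := ram_pos hN w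
          omega
      _ = _ := one_mul _
  have hDx : D' x = D' (x - algebraMap k M (c w)) := by
    rw [map_sub, Derivation.map_algebraMap, sub_zero]
  have hDx0 : D' x ≠ 0 := by
    rw [hDx]
    exact D_pi_ne_zero w D' hM hD' (hx.unif w hw)
  have hordx : w.ord (D' x) = ordDer w D' := by
    rw [hDx]
    exact ord_D_pi w D' hM (hx.unif w hw)
  have hint : IsIntegral L x := Algebra.IsIntegral.isIntegral x
  have hf0 : aeval x (derivative f) ≠ 0 :=
    (Algebra.IsSeparable.isSeparable L x).aeval_derivative_ne_zero (minpoly.aeval L x)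
  have h1 : w.ord (aeval x (derivative f) * D' x) = w.ord (algebraMap L M (D π)) := by
    rw [Place.ord, Place.ord, hval]
  rw [w.ord_mul hf0 hDx0, hordx, Pool.Agent.Helper45.S4.ord_algebraMap hN w, hw,
    ord_D_pi v D hN hπ] at h1
  linarith

end LocGen

section ring

variable {F : Type} [Field F] [Algebra k F] (v : Place k F)

instance instFracRing : IsFractionRing v.ring F := by
  haveI : FaithfulSMul v.ring F := inferInstance
  apply IsFractionRing.of_field
  intro z
  obtain ⟨a, b, ha, hb, hb0, rfl⟩ := exists_frac_ring v z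
  exact ⟨⟨a, ha⟩, ⟨b, hb⟩, by rw [div_eq_mul_inv]; rfl⟩

instance instValRing : ValuationRing v.ring := by
  refine { cond' := fun a b => ?_ }
  by_cases hb : (b : F) = 0
  · exact ⟨0, Or.inl (Subtype.ext (by simp [hb]))⟩
  by_cases ha : (a : F) = 0
  · exact ⟨0, Or.inr (Subtype.ext (by simp [ha]))⟩
  rcases le_total (v.val (a : F)) (v.val (b : F)) with h | h
  · refine ⟨⟨(a : F) / b, ?_⟩, Or.inr (Subtype.ext ?_)⟩
    · rw [v.mem_ring, map_div₀]
      exact div_le_one_of_le₀ h zero_le
    · change (b : F) * (a / b) = a
      field_simp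
  · refine ⟨⟨(b : F) / a, ?_⟩, Or.inl (Subtype.ext ?_)⟩
    · rw [v.mem_ring, map_div₀]
      exact div_le_one_of_le₀ h zero_le
    · change (a : F) * (b / a) = b
      field_simp

end ring

namespace LocGen

variable {v : Place k L} {x : M} {c : Place k M → k} (hx : LocGen hN v x c)

include hx

theorem isIntegral_x : IsIntegral v.ring x := by
  have hint : IsIntegral L x := Algebra.IsIntegral.isIntegral x
  obtain ⟨q, hq1, hq2, hq3⟩ := lifts_and_natDegree_eq_and_monic (f := algebraMap v.ring L)
    (p := minpoly L x) (by
      rw [lifts_iff_coeff_lifts]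
      intro i
      exact ⟨⟨_, hx.coeff_minpoly_le i⟩, rfl⟩) (minpoly.monic hint)
  refine ⟨q, hq3, ?_⟩
  have h1 : aeval x (q.map (algebraMap v.ring L)) = 0 := by rw [hq1, minpoly.aeval]
  rwa [aeval_map_algebraMap] at h1

theorem mem_adjoin_iff (y : M) : y ∈ Algebra.adjoin v.ring {x} ↔
    ∀ w : Place k M, resPl hN w = v → w.val y ≤ 1 := by
  constructor
  · intro hy w hw
    induction hy using Algebra.adjoin_induction with
    | mem z hz =>
      rw [Set.mem_singleton_iff.1 hz]
      exact hx.val_x_le hw
    | algebraMap r => exact val_algebraMap_le_one hN hw r.2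
    | add a b _ _ ha hb => exact (w.val.map_add _ _).trans (max_le ha hb)
    | mul a b _ _ ha hb => rw [map_mul]; exact mul_le_one' ha hb
  · intro hy
    have hint : IsIntegral L x := Algebra.IsIntegral.isIntegral x
    have h1 : y ∈ Algebra.adjoin L {x} := by rw [hx.adjoin_eq_top]; exact Algebra.mem_top
    rw [Algebra.adjoin_singleton_eq_range_aeval] at h1
    obtain ⟨Q0, hQ0⟩ := h1
    have hQ0' : aeval x Q0 = y := hQ0
    set Q := Q0 %ₘ minpoly L x with hQ
    have hQx : aeval x Q = y := by
      rw [hQ, Polynomial.aeval_modByMonic_eq_self_of_root (minpoly.aeval L x), hQ0']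
    have hdeg : Q.natDegree < Module.finrank L M := by
      rw [← hx.natDegree_minpoly]
      apply natDegree_modByMonic_lt _ (minpoly.monic hint)
      intro h0
      have h2 := hx.natDegree_minpoly
      rw [h0, natDegree_one] at h2
      have h3 : 0 < Module.finrank L M := Module.finrank_pos
      omega
    have hc := hx.coeff_val_le Q hdeg (fun w hw => by rw [hQx]; exact hy w hw)
    rw [← hQx, aeval_eq_sum_range]
    apply Subalgebra.sum_mem
    intro i _
    rw [Algebra.smul_def]
    have hself : x ∈ Algebra.adjoin v.ring {x} := Algebra.self_mem_adjoin_singleton v.ring x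
    have hmem : algebraMap L M (Q.coeff i) ∈ Algebra.adjoin v.ring {x} := by
      have h5 := (Algebra.adjoin v.ring {x}).algebraMap_mem ⟨Q.coeff i, hc i⟩
      rw [IsScalarTower.algebraMap_apply v.ring L M] at h5
      exact h5
    exact (Algebra.adjoin v.ring {x}).mul_mem hmem ((Algebra.adjoin v.ring {x}).pow_mem hself i)

/-- **Euler's formula** for the trace dual. -/
theorem trace_dual [Algebra.IsSeparable L M] (y : M) :
    (∀ z : M, (∀ w : Place k M, resPl hN w = v → w.val z ≤ 1) →
      v.val (Algebra.trace L M (y * z)) ≤ 1) ↔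
    ∀ w : Place k M, resPl hN w = v →
      w.val (aeval x (derivative (minpoly L x)) * y) ≤ 1 := by
  haveI : IsIntegrallyClosed v.ring := inferInstance
  have hf0 : aeval x (derivative (minpoly L x)) ≠ 0 :=
    (Algebra.IsSeparable.isSeparable L x).aeval_derivative_ne_zero (minpoly.aeval L x)
  have key := traceForm_dualSubmodule_adjoin v.ring L hx.adjoin_eq_top hx.isIntegral_x
  have h1 : y ∈ (Algebra.traceForm L M).dualSubmodule
      (Subalgebra.toSubmodule (Algebra.adjoin v.ring {x})) ↔
      ∀ z : M, (∀ w : Place k M, resPl hN w = v → w.val z ≤ 1) →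
      v.val (Algebra.trace L M (y * z)) ≤ 1 := by
    rw [LinearMap.BilinForm.mem_dualSubmodule]
    refine forall_congr' fun z => ?_
    rw [Subalgebra.mem_toSubmodule, hx.mem_adjoin_iff]
    refine imp_congr_right fun _ => ?_
    rw [Submodule.mem_one, Algebra.traceForm_apply]
    constructor
    · rintro ⟨a, ha⟩
      rw [← ha]
      exact a.2
    · intro h
      exact ⟨⟨_, h⟩, rfl⟩
  rw [← h1, key]
  have h2 : y ∈ (aeval x (derivative (minpoly L x)))⁻¹ •
        (Subalgebra.toSubmodule (Algebra.adjoin v.ring {x})) ↔
      aeval x (derivative (minpoly L x)) * y ∈ Algebra.adjoin v.ring {x} := by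
    constructor
    · rintro ⟨z, hz, rfl⟩
      change aeval x (derivative (minpoly L x)) * ((aeval x (derivative (minpoly L x)))⁻¹ * z) ∈ _
      rw [mul_inv_cancel_left₀ hf0]
      exact hz
    · intro hz
      refine ⟨_, hz, ?_⟩
      change (aeval x (derivative (minpoly L x)))⁻¹ * (aeval x (derivative (minpoly L x)) * y) = y
      rw [inv_mul_cancel_left₀ hf0]
  rw [h2, hx.mem_adjoin_iff]

end LocGen

end Pool.Agent.Helper31.RRK
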