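import Pool.Agent.Helper31.RRK.Can

/-!
# `cdeg = 2g - 2`, the genus of the rational function field, the exact Hurwitz formula
-/

set_option autoImplicit false
set_option linter.style.haveILetI false

namespace Pool.Agent.Helper31.RRK

open Polynomial IntermediateField Pool.Agent.Helper16 Pool.Agent.Helper33 Pool.Agent.Helper45.FF
open Pool.Agent.Helper45.S4 Pool.Agent.Helper47.RR

section rational

variable {k L : Type} [Field k] [Field L] [Algebra k L]

/-- The rational function field has genus zero. -/
theorem genus_rational [IsAlgClosed k] (hN : IsFunctionField k L) (t : L) (h : k⟮t⟯ = ⊤) :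
    genus k L = 0 := by
  classical
  apply le_antisymm _ (genus_nonneg hN)
  have ht : Transcendental k t := by
    intro hal
    have h1 : Algebra.IsAlgebraic k k⟮t⟯ :=
      IntermediateField.isAlgebraic_adjoin_simple hal.isIntegral
    rw [h] at h1
    haveI : Algebra.IsAlgebraic k L :=
      (IntermediateField.topEquiv (F := k) (E := L)).isAlgebraic_iff.1 h1
    have h2 := hN.2
    rw [trdeg_eq_zero (R := k) (A := L)] at h2
    exact zero_ne_one h2
  have ht0 := transcendental_ne_zero ht
  obtain ⟨S, hS, hsum, -⟩ := hN.zeros t⁻¹ (transcendental_inv ht)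
  have hs0 : t⁻¹ ≠ 0 := inv_ne_zero ht0
  have hfin : Module.finrank k⟮t⁻¹⟯ L = 1 := by
    rw [finrank_inv, h]
    exact IntermediateField.finrank_top
  simp only [deg_eq_one hN, hfin, Nat.cast_one, mul_one] at hsum
  have hpos : ∀ v ∈ S, 1 ≤ v.ord t⁻¹ := by
    intro v hv
    have := (v.ord_pos_iff hs0).2 ((hS v).1 hv)
    omega
  obtain ⟨v0, hv0⟩ : S.Nonempty := by
    rw [Finset.nonempty_iff_ne_empty]
    rintro rfl
    simp at hsum
  have hone : v0.ord t⁻¹ = 1 := by
    have h1 : v0.ord t⁻¹ ≤ ∑ v ∈ S, v.ord t⁻¹ :=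
      Finset.single_le_sum (f := fun v : Place k L => v.ord t⁻¹)
        (fun w hw => (zero_le_one).trans (hpos w hw)) hv0
    have := hpos v0 hv0
    omega
  have huniq : ∀ v ∈ S, v = v0 := by
    intro v hv
    by_contra hne
    have h1 : v.ord t⁻¹ + v0.ord t⁻¹ ≤ ∑ v ∈ S, v.ord t⁻¹ := by
      rw [← Finset.sum_pair (f := fun v : Place k L => v.ord t⁻¹) hne]
      apply Finset.sum_le_sum_of_subset_of_nonneg
      · intro u hu
        rw [Finset.mem_insert, Finset.mem_singleton] at hu
        rcases hu with rfl | rfl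
        · exact hv
        · exact hv0
      · intro u hu _
        exact (zero_le_one).trans (hpos u hu)
    have := hpos v hv
    omega
  have hvt : ∀ v : Place k L, v ≠ v0 → v.val t ≤ 1 := by
    intro v hv
    by_contra hcon
    rw [not_le] at hcon
    apply hv
    apply huniq
    rw [hS, map_inv₀]
    exact inv_lt_one_of_one_lt₀ hcon
  have hv0t : v0.val t = WithZero.exp (1 : ℤ) := by
    have h1 : v0.ord t = -1 := by
      have := v0.ord_inv t
      omega
    rw [val_eq_exp_of_ord ht0 h1, neg_neg]
  obtain ⟨n, hn⟩ : ∃ n : ℕ, 2 * genus k L - 1 ≤ n := ⟨(2 * genus k L - 1).toNat, Int.self_le_toNat _⟩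
  let A : Dv k L := Finsupp.single v0 (n : ℤ)
  have hA : degD A = n := degD_single v0 _
  have hell := ell_eq_of_large hN A (by rw [hA]; exact hn)
  rw [hA] at hell
  have hmem : ∀ i : Fin (n + 1), t ^ (i : ℕ) ∈ Lsp A := by
    intro i
    rw [mem_Lsp]
    intro v
    by_cases hv : v = v0
    · subst hv
      simp only [A, Finsupp.single_eq_same]
      rw [map_pow, hv0t, ← WithZero.exp_nsmul, WithZero.exp_le_exp]
      have := i.2
      simp only [nsmul_eq_mul, mul_one]
      omega
    · simp only [A]
      rw [Finsupp.single_eq_of_ne hv, WithZero.exp_zero, map_pow]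
      exact pow_le_one' (hvt v hv) _
  have hli : LinearIndependent k (fun i : Fin (n + 1) => (⟨t ^ (i : ℕ), hmem i⟩ : Lsp A)) := by
    apply LinearIndependent.of_comp (Lsp A).subtype
    rw [transcendental_iff_injective] at ht
    have h2 := (Polynomial.basisMonomials k).linearIndependent.map'
      (aeval t : k[X] →ₐ[k] L).toLinearMap (LinearMap.ker_eq_bot.2 ht)
    have h0 : (⇑(aeval t : k[X] →ₐ[k] L).toLinearMap ∘ ⇑(basisMonomials k)) =
        fun i : ℕ => t ^ i := by
      funext i
      simp
    rw [h0] at h2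
    exact h2.comp _ Fin.val_injective
  haveI := finite_Lsp hN A
  have hcard := hli.fintype_card_le_finrank
  rw [Fintype.card_fin] at hcard
  have h3 : ((n + 1 : ℕ) : ℤ) ≤ ell A := by
    unfold ell
    exact_mod_cast hcard
  push_cast at h3
  omega

end rational

section main

variable {k L : Type} [Field k] [Field L] [Algebra k L]

/-- **The degree of the divisor of a Kaehler differential is `2g - 2`.** -/
theorem cdeg_eq [IsAlgClosed k] (hN : IsFunctionField k L) : cdeg hN = 2 * genus k L - 2 := by
  obtain ⟨t, ht, hs⟩ := exists_separating hN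
  haveI := finiteDimensional_adjoin hN t ht
  have hF := isFunctionField_adjoin hN t ht
  let g : k⟮t⟯ := AdjoinSimple.gen k t
  have hgen : k⟮g⟯ = ⊤ := by
    apply IntermediateField.lift_injective k⟮t⟯
    rw [IntermediateField.lift_adjoin_simple, IntermediateField.lift_top]
    rfl
  obtain ⟨D, hD⟩ := exists_ne_zero hF
  obtain ⟨D', hD'⟩ := exists_extension (M := L) hF D
  have hne := ne_zero_of_ext hD hD'
  obtain ⟨B, hB1, hB2⟩ := sum_pullback (M := L) hF (canD hF D)
  have hd : ∀ w, (canD hN D' - B) w = ram hF w * ordDer (resPl hF w) D - ordDer w D' := by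
    intro w
    rw [Finsupp.sub_apply, hB1, canD_apply hN hne, canD_apply hF hD]
    ring
  have h1 := genus_hurwitz_aux hF hN hD hD' hd
  rw [genus_rational hF g hgen, degD_sub, hB2, degD_canD hN hne, degD_canD hF hD,
    cdeg_rational hF g hgen] at h1
  linarith

/-- degree of the canonical divisor of a nonzero derivation -/
theorem degD_canD_eq [IsAlgClosed k] (hN : IsFunctionField k L) {D : Derivation k L L}
    (hD : D ≠ 0) : degD (canD hN D) = 2 * genus k L - 2 := by
  rw [degD_canD hN hD, cdeg_eq hN]

variable {M : Type} [Field M] [Algebra k M] [Algebra L M] [IsScalarTower k L M]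

/-- **The exact Hurwitz formula** (any characteristic). -/
theorem genus_hurwitz [IsAlgClosed k] (hN : IsFunctionField k L) (hM : IsFunctionField k M)
    [FiniteDimensional L M] [Algebra.IsSeparable L M] :
    ∃ d : Dv k M, (∀ w, (ram hN w : ℤ) - 1 ≤ d w) ∧
      (∀ w, (ram hN w : k) ≠ 0 → (ram hN w : ℤ) - 1 = d w) ∧
      2 * genus k M - 2 = Module.finrank L M * (2 * genus k L - 2) + degD d := by
  obtain ⟨d, h1, h2, h3⟩ := hurwitz hN hM
  exact ⟨d, h1, h2, by rw [← cdeg_eq hM, ← cdeg_eq hN, h3]⟩

/-- In the notation of `exists_psys_aux`: for a separating element `t` the divisor of `dt`. -/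
theorem sum_ordDer [IsAlgClosed k] (hN : IsFunctionField k L) {D : Derivation k L L}
    (hD : D ≠ 0) : ∑ᶠ v : Place k L, ordDer v D = 2 - 2 * genus k L := by
  have h1 := degD_canD_eq hN hD
  have h2 : ∑ᶠ v : Place k L, ordDer v D = - degD (canD hN D) := by
    rw [degD_eq_sum (canD hN D) _ subset_rfl, ← Finset.sum_neg_distrib,
      finsum_eq_sum_of_support_subset (s := (canD hN D).support)]
    · refine Finset.sum_congr rfl fun v _ => ?_
      rw [canD_apply hN hD, neg_neg]
    · intro v hv
      rw [Finset.mem_coe, Finsupp.mem_support_iff, canD_apply hN hD]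
      exact neg_ne_zero.2 hv
  rw [h2, h1]
  ring

end main

end Pool.Agent.Helper31.RRK
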