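import Pool.Agent.Helper31.RRK.Tower
import Pool.Agent.Helper67.RRHurwitz
import Pool.Agent.Helper5.RRD1

/-!
# Local generators: the ring of functions regular above a place is `O_v[x]`
-/

set_option autoImplicit false
set_option linter.style.haveILetI false
set_option linter.unusedSectionVars false

namespace Pool.Agent.Helper31.RRK

open Polynomial IntermediateField Pool.Agent.Helper16 Pool.Agent.Helper33 Pool.Agent.Helper45.FF
open Pool.Agent.Helper45.S4 Pool.Agent.Helper47.RR

variable {k L M : Type} [Field k] [Field L] [Field M] [Algebra k L] [Algebra k M] [Algebra L M]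
  [IsScalarTower k L M]

section val

variable (hN : IsFunctionField k L) [Algebra.IsAlgebraic L M]

theorem val_algebraMap_eq (w : Place k M) (a : L) :
    w.val (algebraMap L M a) = (resPl hN w).val a ^ ram hN w := by
  by_cases ha : a = 0
  · subst ha
    have := ram_pos hN w
    rw [map_zero, map_zero, map_zero, zero_pow (by omega)]
  have h1 := Pool.Agent.Helper45.S4.ord_algebraMap hN w a
  have ha' : algebraMap L M a ≠ 0 := by simpa using ha
  rw [val_eq_exp_of_ord ha' h1, val_eq_exp_of_ord ha rfl, ← WithZero.exp_nsmul]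
  congr 1
  simp

theorem val_algebraMap_le_exp {v : Place k L} {w : Place k M} (hw : resPl hN w = v) {a : L}
    {m : ℤ} (h : v.val a ≤ WithZero.exp m) :
    w.val (algebraMap L M a) ≤ WithZero.exp ((ram hN w : ℤ) * m) := by
  rw [val_algebraMap_eq hN, hw]
  calc v.val a ^ ram hN w ≤ WithZero.exp m ^ ram hN w := pow_le_pow_left' h _
    _ = _ := by rw [← WithZero.exp_nsmul]; simp

theorem val_algebraMap_le_one {v : Place k L} {w : Place k M} (hw : resPl hN w = v) {a : L}
    (h : v.val a ≤ 1) : w.val (algebraMap L M a) ≤ 1 := by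
  have := val_algebraMap_le_exp hN hw (m := 0) (by simpa using h)
  simpa using this

end val

variable [IsAlgClosed k] (hN : IsFunctionField k L) [FiniteDimensional L M]

/-- `x` is a local generator above `v`. -/
structure LocGen (v : Place k L) (x : M) (c : Place k M → k) : Prop where
  unif : ∀ w : Place k M, resPl hN w = v →
    w.val (x - algebraMap k M (c w)) = WithZero.exp (-1 : ℤ)
  inj : ∀ w w' : Place k M, resPl hN w = v → resPl hN w' = v → c w = c w' → w = w'

theorem exists_locGen (v : Place k L) : ∃ (x : M) (c : Place k M → k), LocGen hN v x c := by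
  classical
  have hM : IsFunctionField k M := isFunctionField_ext hN
  haveI : Infinite k := IsAlgClosed.instInfinite
  obtain ⟨c, hc⟩ : ∃ c : Place k M → k, ∀ w ∈ fib (M := M) hN v, ∀ w' ∈ fib (M := M) hN v,
      c w = c w' → w = w' := by
    let e := (fib (M := M) hN v).equivFin
    let f := Infinite.natEmbedding k
    refine ⟨fun w => if h : w ∈ fib (M := M) hN v then f (e ⟨w, h⟩) else 0, ?_⟩
    intro w hw w' hw' h
    simp only [dif_pos hw, dif_pos hw'] at h
    have h1 := Fin.ext (f.injective h)
    exact congrArg Subtype.val (e.injective h1)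
  choose ϖ hϖ0 hϖ using fun w : Place k M => w.exists_uniformizer
  obtain ⟨x, hx⟩ := weak_approx hM (fib (M := M) hN v)
    (fun w => algebraMap k M (c w) + ϖ w) (-2)
  refine ⟨x, c, ⟨fun w hw => ?_, fun w w' hw hw' h => ?_⟩⟩
  · have h1 := hx w ((mem_fib hN v w).2 hw)
    have h2 : x - algebraMap k M (c w) = ϖ w + (x - (algebraMap k M (c w) + ϖ w)) := by ring
    rw [h2, Valuation.map_add_eq_of_lt_left, hϖ]
    rw [hϖ]
    refine h1.trans_lt ?_
    rw [WithZero.exp_lt_exp]
    norm_num
  · exact hc w ((mem_fib hN v w).2 hw) w' ((mem_fib hN v w').2 hw') h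

namespace LocGen

variable {hN} {v : Place k L} {x : M} {c : Place k M → k} (hx : LocGen hN v x c)

include hx

omit [IsAlgClosed k] in
theorem val_x_le {w : Place k M} (hw : resPl hN w = v) : w.val x ≤ 1 := by
  have h2 : x = (x - algebraMap k M (c w)) + algebraMap k M (c w) := by ring
  rw [h2]
  refine (w.val.map_add _ _).trans (max_le ?_ (w.val_algebraMap_le _))
  rw [hx.unif w hw]
  exact exp_neg_one_lt.le

omit [IsAlgClosed k] in
theorem val_sub_of_ne {w : Place k M} (hw : resPl hN w = v) {a : k} (ha : a ≠ c w) :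
    w.val (x - algebraMap k M a) = 1 := by
  have h2 : x - algebraMap k M a = algebraMap k M (c w - a) + (x - algebraMap k M (c w)) := by
    rw [map_sub]; ring
  have h1 : w.val (algebraMap k M (c w - a)) = 1 := w.triv _ (sub_ne_zero.2 (Ne.symm ha))
  rw [h2, Valuation.map_add_eq_of_lt_left, h1]
  rw [h1, hx.unif w hw]
  exact exp_neg_one_lt

theorem dvd_of_val_le {w : Place k M} (hw : resPl hN w = v) (P : k[X]) (e : ℕ)
    (h : w.val (aeval x P) ≤ WithZero.exp (-(e : ℤ))) : (X - C (c w)) ^ e ∣ P := by
  by_cases hP : P = 0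
  · rw [hP]; exact dvd_zero _
  obtain ⟨Q, hQ, hroot⟩ := exists_eq_pow_rootMultiplicity_mul_and_not_dvd P hP (c w)
  set m := rootMultiplicity (c w) P with hm
  have h1 : w.val (aeval x Q) = 1 := by
    have h2 : eval (c w) Q ≠ 0 := by
      intro h0
      exact hroot (dvd_iff_isRoot.2 h0)
    obtain ⟨R, hR⟩ : (X - C (c w)) ∣ Q - C (eval (c w) Q) := by
      rw [dvd_iff_isRoot]
      simp
    have h3 : aeval x Q = algebraMap k M (eval (c w) Q) +
        (x - algebraMap k M (c w)) * aeval x R := by
      have h4 := congrArg (aeval x) hR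
      rw [map_sub, map_mul, map_sub, aeval_C, aeval_X, aeval_C] at h4
      rw [← h4]; ring
    have h5 : w.val (algebraMap k M (eval (c w) Q)) = 1 := w.triv _ h2
    rw [h3, Valuation.map_add_eq_of_lt_left, h5]
    rw [h5, map_mul, hx.unif w hw]
    have h6 : w.val (aeval x R) ≤ 1 := by
      have h7 : x ∈ w.ring := hx.val_x_le hw
      exact (w.res_aeval h7 R).1
    exact mul_lt_one_of_lt_of_le exp_neg_one_lt h6
  have h2 : w.val (aeval x P) = WithZero.exp (-(m : ℤ)) := by
    conv_lhs => rw [hQ]
    rw [map_mul, map_mul, h1, mul_one, map_pow, map_sub, aeval_X, aeval_C, map_pow,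
      hx.unif w hw, ← WithZero.exp_nsmul]
    simp
  rw [h2, WithZero.exp_le_exp] at h
  rw [hQ]
  exact (pow_dvd_pow _ (by omega)).trans (dvd_mul_right _ _)

omit hx in
/-- the product polynomial -/
noncomputable def Pi (hN : IsFunctionField k L) (v : Place k L) (c : Place k M → k) : k[X] :=
  ∏ w ∈ fib (M := M) hN v, (X - C (c w)) ^ ram hN w

omit hx in
theorem Pi_monic : (Pi hN v c).Monic :=
  monic_prod_of_monic _ _ fun w _ => (monic_X_sub_C (c w)).pow _

omit hx in
theorem natDegree_Pi : (Pi hN v c).natDegree = Module.finrank L M := by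
  unfold Pi
  rw [natDegree_prod_of_monic _ _ fun w _ => (monic_X_sub_C (c w)).pow _,
    ← sum_fib (M := M) hN v]
  refine Finset.sum_congr rfl fun w _ => ?_
  rw [(monic_X_sub_C (c w)).natDegree_pow, natDegree_X_sub_C, mul_one]

theorem Pi_dvd (P : k[X])
    (h : ∀ w : Place k M, resPl hN w = v → w.val (aeval x P) ≤ WithZero.exp (-(ram hN w : ℤ))) :
    Pi hN v c ∣ P := by
  apply Finset.prod_dvd_of_coprime
  · intro w hw w' hw' hne
    rw [Finset.mem_coe, mem_fib] at hw hw'
    apply IsCoprime.pow
    apply isCoprime_X_sub_C_of_isUnit_sub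
    rw [isUnit_iff_ne_zero, sub_ne_zero]
    exact fun h0 => hne (hx.inj w w' hw hw' h0)
  · intro w hw
    rw [mem_fib] at hw
    exact hx.dvd_of_val_le hw P _ (h w hw)

theorem val_Pi {w : Place k M} (hw : resPl hN w = v) :
    w.val (aeval x (Pi hN v c)) = WithZero.exp (-(ram hN w : ℤ)) := by
  unfold Pi
  rw [map_prod, map_prod, Finset.prod_eq_single w]
  · rw [map_pow, map_pow, map_sub, aeval_X, aeval_C, hx.unif w hw, ← WithZero.exp_nsmul]
    simp
  · intro w' hw' hne
    rw [mem_fib] at hw'
    rw [map_pow, map_pow, map_sub, aeval_X, aeval_C, hx.val_sub_of_ne hw, one_pow]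
    exact fun h0 => hne (hx.inj w' w hw' hw h0)
  · intro h
    exact absurd ((mem_fib hN v w).2 hw) h

theorem eq_zero_of_val (P : k[X]) (hP : P.natDegree < Module.finrank L M)
    (h : ∀ w : Place k M, resPl hN w = v → w.val (aeval x P) ≤ WithZero.exp (-(ram hN w : ℤ))) :
    P = 0 := by
  by_contra h0
  have h1 := natDegree_le_of_dvd (hx.Pi_dvd P h) h0
  rw [natDegree_Pi] at h1
  omega

theorem val_aeval_le {w : Place k M} (hw : resPl hN w = v) (R : L[X]) (m : ℤ)
    (hR : ∀ i, v.val (R.coeff i) ≤ WithZero.exp m) :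
    w.val (aeval x R) ≤ WithZero.exp ((ram hN w : ℤ) * m) := by
  rw [aeval_eq_sum_range]
  apply Valuation.map_sum_le
  intro i _
  rw [Algebra.smul_def, map_mul, map_pow]
  calc w.val (algebraMap L M (R.coeff i)) * w.val x ^ i
      ≤ WithZero.exp ((ram hN w : ℤ) * m) * 1 :=
        mul_le_mul' (val_algebraMap_le_exp hN hw (hR i)) (pow_le_one' (hx.val_x_le hw) i)
    _ = _ := mul_one _

omit hx in
theorem exists_residue_poly (hN : IsFunctionField k L) (v : Place k L) (Q : L[X])
    (hQ : ∀ i, v.val (Q.coeff i) ≤ 1) :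
    ∃ P : k[X], P.natDegree ≤ Q.natDegree ∧
      ∀ i, v.val ((Q - P.map (algebraMap k L)).coeff i) ≤ WithZero.exp (-1 : ℤ) := by
  choose r hr using fun i => exists_res_val hN v (Q.coeff i) (hQ i)
  refine ⟨∑ i ∈ Finset.range (Q.natDegree + 1), monomial i (r i), ?_, ?_⟩
  · apply natDegree_sum_le_of_forall_le
    intro i hi
    exact (natDegree_monomial_le _).trans (by rw [Finset.mem_range] at hi; omega)
  · intro i
    have h1 : (∑ i ∈ Finset.range (Q.natDegree + 1), monomial i (r i)).coeff i =
        if i < Q.natDegree + 1 then r i else 0 := by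
      rw [finsetSum_coeff]
      simp only [coeff_monomial]
      rw [Finset.sum_ite_eq' (Finset.range (Q.natDegree + 1)) i]
      simp only [Finset.mem_range]
    rw [coeff_sub, coeff_map, h1]
    have hlt : ∀ y : L, v.val y < 1 → v.val y ≤ WithZero.exp (-1 : ℤ) := by
      intro y hy
      by_cases hy0 : y = 0
      · rw [hy0, map_zero]; exact zero_le
      · rw [val_le_exp_iff v _ hy0]
        have := (v.ord_pos_iff hy0).2 hy
        omega
    split_ifs with h
    · exact hlt _ (hr i)
    · rw [coeff_eq_zero_of_natDegree_lt (by omega)]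
      simp

/-- **Key lemma.** -/
theorem coeff_val_le (Q : L[X]) (hQ : Q.natDegree < Module.finrank L M)
    (h : ∀ w : Place k M, resPl hN w = v → w.val (aeval x Q) ≤ 1) (i : ℕ) :
    v.val (Q.coeff i) ≤ 1 := by
  by_contra hcon
  rw [not_le] at hcon
  have hQ0 : Q ≠ 0 := by
    rintro rfl
    rw [coeff_zero, map_zero] at hcon
    exact absurd hcon (not_lt.2 zero_le)
  have hi : i ∈ Finset.range (Module.finrank L M) := by
    rw [Finset.mem_range]
    by_contra h0
    rw [coeff_eq_zero_of_natDegree_lt (by omega), map_zero] at hcon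
    exact absurd hcon (not_lt.2 zero_le)
  obtain ⟨j, hj, hmax⟩ := Finset.exists_max_image (Finset.range (Module.finrank L M))
    (fun i => v.val (Q.coeff i)) ⟨i, hi⟩
  set a := Q.coeff j with ha
  have ha1 : 1 < v.val a := hcon.trans_le (hmax i hi)
  have ha0 : a ≠ 0 := by
    intro h0
    rw [h0, map_zero] at ha1
    exact absurd ha1 (not_lt.2 zero_le)
  have hva0 : v.val a ≠ 0 := by simpa using ha0
  have hmax' : ∀ i, v.val (Q.coeff i) ≤ v.val a := by
    intro i
    by_cases h0 : i < Module.finrank L M
    · exact hmax i (Finset.mem_range.2 h0)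
    · rw [coeff_eq_zero_of_natDegree_lt (by omega), map_zero]; exact zero_le
  have hinv : v.val a⁻¹ ≤ WithZero.exp (-1 : ℤ) := by
    rw [val_le_exp_iff v _ (inv_ne_zero ha0), v.ord_inv]
    have := (v.ord_neg_iff ha0).2 ha1
    omega
  obtain ⟨P, hP1, hP2⟩ := exists_residue_poly hN v (C a⁻¹ * Q) (by
    intro i
    rw [coeff_C_mul, map_mul, map_inv₀]
    exact (inv_mul_le_one₀ (zero_lt_iff.2 hva0)).2 (hmax' i))
  have hP0 : P = 0 := by
    apply hx.eq_zero_of_val
    · refine hP1.trans_lt ((natDegree_C_mul_le _ _).trans_lt hQ)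
    · intro w hw
      have h1 : aeval x P = aeval x (C a⁻¹ * Q) - aeval x (C a⁻¹ * Q - P.map (algebraMap k L)) := by
        rw [map_sub, aeval_map_algebraMap]; ring
      rw [h1]
      refine (w.val.map_sub _ _).trans (max_le ?_ ?_)
      · rw [map_mul, map_mul, aeval_C]
        have h2 := val_algebraMap_le_exp hN hw hinv
        calc w.val (algebraMap L M a⁻¹) * w.val (aeval x Q) ≤
              WithZero.exp ((ram hN w : ℤ) * -1) * 1 := mul_le_mul' h2 (h w hw)
          _ = _ := by rw [mul_one]; congr 1; ring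
      · have h2 := hx.val_aeval_le hw _ (-1) hP2
        rwa [mul_neg_one] at h2
  have h1 := hP2 j
  rw [hP0, Polynomial.map_zero, sub_zero, coeff_C_mul, ← ha, inv_mul_cancel₀ ha0, map_one] at h1
  exact absurd h1 (not_le.2 exp_neg_one_lt)

theorem natDegree_minpoly : (minpoly L x).natDegree = Module.finrank L M := by
  apply le_antisymm (minpoly.natDegree_le x)
  by_contra hcon
  rw [not_le] at hcon
  obtain ⟨s, hs⟩ := v.surj (WithZero.exp (1 : ℤ))
  have hint : IsIntegral L x := Algebra.IsIntegral.isIntegral x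
  have h1 := hx.coeff_val_le (C s * minpoly L x) ((natDegree_C_mul_le _ _).trans_lt hcon) (by
    intro w _
    rw [map_mul, minpoly.aeval, mul_zero, map_zero]
    exact zero_le) (minpoly L x).natDegree
  rw [coeff_C_mul, Monic.coeff_natDegree (minpoly.monic hint), mul_one, hs,
    ← WithZero.exp_zero, WithZero.exp_le_exp] at h1
  norm_num at h1

theorem adjoin_eq_top : Algebra.adjoin L {x} = ⊤ := by
  have hint : IsIntegral L x := Algebra.IsIntegral.isIntegral x
  have h1 : L⟮x⟯ = ⊤ := by
    apply IntermediateField.eq_of_le_of_finrank_eq le_top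
    rw [IntermediateField.adjoin.finrank hint, hx.natDegree_minpoly, IntermediateField.finrank_top']
  rw [← IntermediateField.adjoin_simple_toSubalgebra_of_isAlgebraic hint.isAlgebraic, h1,
    IntermediateField.top_toSubalgebra]

/-- the coefficients of the minimal polynomial are integral at `v` -/
theorem coeff_minpoly_le (i : ℕ) : v.val ((minpoly L x).coeff i) ≤ 1 := by
  have hint : IsIntegral L x := Algebra.IsIntegral.isIntegral x
  set n := Module.finrank L M with hn
  have hn0 : 0 < n := Module.finrank_pos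
  have hdeg := hx.natDegree_minpoly
  have hmon := minpoly.monic hint
  have hlt : (minpoly L x - X ^ n).natDegree < n := by
    have h0 : (minpoly L x - X ^ n).degree < (minpoly L x).degree := by
      apply degree_sub_lt_left
      · rw [degree_eq_natDegree hmon.ne_zero, hdeg, degree_X_pow]
      · exact hmon.ne_zero
      · rw [hmon.leadingCoeff, leadingCoeff_X_pow]
    rw [degree_eq_natDegree hmon.ne_zero, hdeg] at h0
    by_cases h1 : minpoly L x - X ^ n = 0
    · rw [h1, natDegree_zero]; exact hn0
    · exact (natDegree_lt_iff_degree_lt h1).2 h0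
  have h1 := hx.coeff_val_le (minpoly L x - X ^ n) hlt (by
    intro w hw
    rw [map_sub, minpoly.aeval, zero_sub, Valuation.map_neg, map_pow, aeval_X, map_pow]
    exact pow_le_one' (hx.val_x_le hw) n) i
  have h2 : (minpoly L x).coeff i = (minpoly L x - X ^ n).coeff i + (X ^ n : L[X]).coeff i := by
    rw [coeff_sub]; ring
  rw [h2]
  refine (v.val.map_add _ _).trans (max_le h1 ?_)
  rw [coeff_X_pow]
  split_ifs <;> simp

/-- The minimal polynomial is congruent to the product polynomial. -/
theorem minpoly_sub_Pi (i : ℕ) :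
    v.val ((minpoly L x - (Pi hN v c).map (algebraMap k L)).coeff i) ≤ WithZero.exp (-1 : ℤ) := by
  have hint : IsIntegral L x := Algebra.IsIntegral.isIntegral x
  have hmon := minpoly.monic hint
  obtain ⟨P, hP1, hP2⟩ := exists_residue_poly hN v (minpoly L x) hx.coeff_minpoly_le
  have hdvd : Pi hN v c ∣ P := by
    apply hx.Pi_dvd
    intro w hw
    have h1 : aeval x P = - aeval x (minpoly L x - P.map (algebraMap k L)) := by
      rw [map_sub, aeval_map_algebraMap, minpoly.aeval]; ring
    rw [h1, Valuation.map_neg]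
    have h2 := hx.val_aeval_le hw _ (-1) hP2
    rwa [mul_neg_one] at h2
  have hlead : P.coeff (Module.finrank L M) = 1 := by
    have h1 := hP2 (Module.finrank L M)
    rw [coeff_sub, coeff_map, ← hx.natDegree_minpoly, hmon.coeff_natDegree,
      ← map_one (algebraMap k L), ← map_sub] at h1
    by_contra hne
    rw [hx.natDegree_minpoly] at h1
    rw [v.triv _ (sub_ne_zero.2 (Ne.symm hne))] at h1
    exact absurd h1 (not_le.2 exp_neg_one_lt)
  have hPdeg : P.natDegree = Module.finrank L M := by
    apply le_antisymm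
    · rw [← hx.natDegree_minpoly]; exact hP1
    · apply le_natDegree_of_ne_zero
      rw [hlead]; exact one_ne_zero
  have hPmon : P.Monic := by
    rw [Monic, leadingCoeff, hPdeg, hlead]
  have hPeq : Pi hN v c = P :=
    (eq_of_monic_of_dvd_of_natDegree_le Pi_monic hPmon hdvd (by rw [hPdeg, natDegree_Pi])).symm
  rw [hPeq]
  exact hP2 i

end LocGen

end Pool.Agent.Helper31.RRK
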