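import Pool.Agent.Helper31.RRK.Der
import Pool.Agent.Helper45.S4Inert

/-!
# The degree of the canonical divisor (Kaehler version) and the Hurwitz formula
-/

set_option autoImplicit false
set_option linter.style.haveILetI false

namespace Pool.Agent.Helper31.RRK

open Polynomial IntermediateField Pool.Agent.Helper16 Pool.Agent.Helper33 Pool.Agent.Helper45.FF
open Pool.Agent.Helper45.S4 Pool.Agent.Helper47.RR

section cdeg

variable {k L : Type} [Field k] [Field L] [Algebra k L]

/-- The divisor of the differential dual to a nonzero derivation. -/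
noncomputable def canD [IsAlgClosed k] (hN : IsFunctionField k L) (D : Derivation k L L) :
    Dv k L :=
  open scoped Classical in
  if hD : D ≠ 0 then Finsupp.ofSupportFinite (fun v => - ordDer v D) (by
    refine (ordDer_finite hN hD).subset ?_
    intro v hv
    simpa using hv) else 0

theorem canD_apply [IsAlgClosed k] (hN : IsFunctionField k L) {D : Derivation k L L}
    (hD : D ≠ 0) (v : Place k L) : canD hN D v = - ordDer v D := by
  unfold canD
  rw [dif_pos hD]
  rfl

theorem degD_eq_sum (A : Dv k L) (S : Finset (Place k L)) (hS : A.support ⊆ S) :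
    degD A = ∑ v ∈ S, A v := by
  unfold degD
  exact Finsupp.sum_of_support_subset A hS _ (fun _ _ => rfl)

theorem degD_add' (A B : Dv k L) : degD (A + B) = degD A + degD B :=
  Finsupp.sum_add_index' (fun _ => rfl) (fun _ _ _ => rfl)

theorem degD_neg' (A : Dv k L) : degD (-A) = - degD A := by
  have := degD_add' A (-A)
  rw [add_neg_cancel] at this
  have h0 : degD (0 : Dv k L) = 0 := Finsupp.sum_zero_index
  omega

theorem prin_apply (hN : IsFunctionField k L) (f : L) (v : Place k L) : prin hN f v = v.ord f :=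
  rfl

theorem degD_prin' [IsAlgClosed k] (hN : IsFunctionField k L) (f : L) :
    degD (prin hN f) = 0 := by
  obtain ⟨S, h1, h2⟩ := hN.product_formula f
  simp only [deg_eq_one hN, Nat.cast_one, mul_one] at h2
  rw [degD_eq_sum _ S]
  · exact h2
  · intro v hv
    rw [Finsupp.mem_support_iff, prin_apply] at hv
    exact (h1 v).2 hv

theorem canD_smul [IsAlgClosed k] (hN : IsFunctionField k L) {D : Derivation k L L}
    (hD : D ≠ 0) {h : L} (h0 : h ≠ 0) : canD hN (h • D) = canD hN D - prin hN h := by
  ext v
  rw [canD_apply hN (smul_ne_zero h0 hD), Finsupp.sub_apply, canD_apply hN hD, prin_apply,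
    ordDer_smul v hN hD h0]
  ring

/-- The degree of the canonical divisor (zero if there is no nonzero derivation). -/
noncomputable def cdeg [IsAlgClosed k] (hN : IsFunctionField k L) : ℤ :=
  degD (canD hN (exists_ne_zero hN).choose)

theorem degD_canD [IsAlgClosed k] (hN : IsFunctionField k L) {D : Derivation k L L}
    (hD : D ≠ 0) : degD (canD hN D) = cdeg hN := by
  have h1 := (exists_ne_zero hN).choose_spec
  obtain ⟨h, hh⟩ := exists_eq_smul hN h1 D
  have h0 : h ≠ 0 := by
    rintro rfl
    rw [zero_smul] at hh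
    exact hD hh
  rw [hh, canD_smul hN h1 h0, sub_eq_add_neg, degD_add', degD_neg', degD_prin', neg_zero,
    add_zero]
  rfl

end cdeg

section tower

variable {k L M : Type} [Field k] [Field L] [Field M] [Algebra k L] [Algebra k M] [Algebra L M]
  [IsScalarTower k L M]

/-- Derivations extend to finite separable extensions. -/
theorem exists_extension [IsAlgClosed k] (hN : IsFunctionField k L) [FiniteDimensional L M]
    [Algebra.IsSeparable L M] (D : Derivation k L L) :
    ∃ D' : Derivation k M M, ∀ x : L, D' (algebraMap L M x) = algebraMap L M (D x) := by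
  obtain ⟨t, ht, hs⟩ := exists_separating hN
  have hsM : Transcendental k (algebraMap L M t) := by
    rwa [transcendental_algebraMap_iff (algebraMap L M).injective]
  haveI : Algebra.IsSeparable k⟮t⟯ M := Algebra.IsSeparable.trans k⟮t⟯ L M
  have h1 : (k⟮t⟯).map (IsScalarTower.toAlgHom k L M) = k⟮algebraMap L M t⟯ := by
    rw [IntermediateField.adjoin_map, Set.image_singleton]
    rfl
  let i : k⟮t⟯ ≃ₐ[k] k⟮algebraMap L M t⟯ :=
    (IntermediateField.equivMap k⟮t⟯ (IsScalarTower.toAlgHom k L M)).trans
      (IntermediateField.equivOfEq h1)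
  haveI : Algebra.IsSeparable k⟮algebraMap L M t⟯ M := by
    refine Algebra.IsSeparable.of_equiv_equiv i.toRingEquiv (RingEquiv.refl M) ?_
    ext x
    rfl
  obtain ⟨D1, hD1⟩ := exists_deriv (algebraMap L M t) hsM
  refine ⟨algebraMap L M (D t) • D1, ?_⟩
  let E1 : Derivation k L M := (algebraMap L M (D t) • D1).compAlgebraMap L
  let E2 : Derivation k L M := (Algebra.linearMap L M).compDer D
  have h2 : E1 - E2 = 0 := by
    apply deriv_eq_zero t
    change algebraMap L M (D t) • D1 (algebraMap L M t) - algebraMap L M (D t) = 0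
    rw [hD1]
    simp
  intro x
  have h3 : (E1 - E2) x = 0 := by rw [h2]; rfl
  exact sub_eq_zero.1 h3

variable [FiniteDimensional L M]

omit [IsScalarTower k L M] [FiniteDimensional L M] in
theorem ne_zero_of_ext {D : Derivation k L L} (hD : D ≠ 0) {D' : Derivation k M M}
    (h : ∀ x : L, D' (algebraMap L M x) = algebraMap L M (D x)) : D' ≠ 0 := by
  rintro rfl
  apply hD
  ext x
  have := h x
  rw [Derivation.coe_zero, Pi.zero_apply] at this
  rw [Derivation.coe_zero, Pi.zero_apply]
  exact (map_eq_zero _).1 this.symm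

/-- **Different exponents.** -/
theorem ram_le [IsAlgClosed k] (hN : IsFunctionField k L) (hM : IsFunctionField k M)
    {D : Derivation k L L} (hD : D ≠ 0) {D' : Derivation k M M}
    (h : ∀ x : L, D' (algebraMap L M x) = algebraMap L M (D x)) (w : Place k M) :
    (ram hN w : ℤ) - 1 ≤ ram hN w * ordDer (resPl hN w) D - ordDer w D' ∧
    ((ram hN w : k) ≠ 0 →
      (ram hN w : ℤ) - 1 = ram hN w * ordDer (resPl hN w) D - ordDer w D') := by
  obtain ⟨π, hπ0, hπ⟩ := (resPl hN w).exists_uniformizer
  have hDπ := D_pi_ne_zero (resPl hN w) D hN hD hπ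
  have ho : (resPl hN w).ord π = 1 := by
    rw [Place.ord, hπ, WithZero.log_exp]; norm_num
  have h1 : w.ord (algebraMap L M π) = ram hN w := by
    rw [ord_algebraMap hN w, ho, mul_one]
  have h2 : w.ord (D' (algebraMap L M π)) = ram hN w * ordDer (resPl hN w) D := by
    rw [h, ord_algebraMap hN w, ord_D_pi (resPl hN w) D hN hπ]
  have h3 : D' (algebraMap L M π) ≠ 0 := by
    rw [h]
    simpa using hDπ
  constructor
  · have h4 := le_ord_D w hM h3
    rw [h1, h2] at h4
    omega
  · intro h5
    have h6 := ord_D_eq w hM (ne_zero_of_ext hD h) (x := algebraMap L M π) (by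
      rw [h1]
      simpa using h5)
    rw [h1, h2] at h6
    omega

/-- The pull-back of a divisor along a finite extension has degree `[M : L]` times the degree. -/
theorem sum_pullback [IsAlgClosed k] (hN : IsFunctionField k L) (A : Dv k L) :
    ∃ B : Dv k M, (∀ w, B w = ram hN w * A (resPl hN w)) ∧
      degD B = Module.finrank L M * degD A := by
  classical
  choose T hT1 hT2 using fun v : Place k L => sum_ram (M := M) hN v
  let S : Finset (Place k M) := A.support.biUnion T
  let B : Dv k M := Finsupp.ofSupportFinite (fun w => ram hN w * A (resPl hN w)) (by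
    refine S.finite_toSet.subset ?_
    intro w hw
    have hw' : A (resPl hN w) ≠ 0 := fun h0 => hw (by simp [h0])
    simp only [S, Finset.coe_biUnion, Set.mem_iUnion]
    exact ⟨resPl hN w, by simpa using hw', by simpa using (hT1 _ w).2 rfl⟩)
  refine ⟨B, fun _ => rfl, ?_⟩
  have hB : B.support ⊆ S := by
    intro w hw
    rw [Finsupp.mem_support_iff] at hw
    have hw' : A (resPl hN w) ≠ 0 := fun h0 => hw (by
      change (ram hN w : ℤ) * A (resPl hN w) = 0
      rw [h0, mul_zero])
    simp only [S, Finset.mem_biUnion]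
    exact ⟨resPl hN w, by simpa using hw', (hT1 _ w).2 rfl⟩
  rw [degD_eq_sum B S hB, Finset.sum_biUnion, degD_eq_sum A A.support subset_rfl, Finset.mul_sum]
  · apply Finset.sum_congr rfl
    intro v _
    have h1 : ∑ w ∈ T v, B w = ∑ w ∈ T v, (ram hN w : ℤ) * A v := by
      apply Finset.sum_congr rfl
      intro w hw
      change (ram hN w : ℤ) * A (resPl hN w) = _
      rw [(hT1 v w).1 hw]
    rw [h1, ← Finset.sum_mul]
    congr 1
    exact_mod_cast hT2 v
  · intro v _ v' _ hne
    rw [Function.onFun, Finset.disjoint_left]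
    intro w hw hw'
    exact hne (((hT1 v w).1 hw).symm.trans ((hT1 v' w).1 hw'))

/-- **The Hurwitz formula** for a finite separable extension of function fields of one variable
over an algebraically closed field (any characteristic, wild ramification allowed): `d` is the
different divisor. -/
theorem hurwitz [IsAlgClosed k] (hN : IsFunctionField k L) (hM : IsFunctionField k M)
    [Algebra.IsSeparable L M] :
    ∃ d : Dv k M, (∀ w, (ram hN w : ℤ) - 1 ≤ d w) ∧
      (∀ w, (ram hN w : k) ≠ 0 → (ram hN w : ℤ) - 1 = d w) ∧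
      cdeg hM = Module.finrank L M * cdeg hN + degD d := by
  obtain ⟨D, hD⟩ := exists_ne_zero hN
  obtain ⟨D', hD'⟩ := exists_extension (M := M) hN D
  have hne := ne_zero_of_ext hD hD'
  obtain ⟨B, hB1, hB2⟩ := sum_pullback (M := M) hN (canD hN D)
  have hd : ∀ w, (canD hM D' - B) w = ram hN w * ordDer (resPl hN w) D - ordDer w D' := by
    intro w
    rw [Finsupp.sub_apply, hB1, canD_apply hM hne, canD_apply hN hD]
    ring
  refine ⟨canD hM D' - B, fun w => ?_, fun w hw => ?_, ?_⟩
  · rw [hd]
    exact (ram_le hN hM hD hD' w).1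
  · rw [hd]
    exact (ram_le hN hM hD hD' w).2 hw
  · rw [sub_eq_add_neg, degD_add', degD_neg', hB2, degD_canD hM hne, degD_canD hN hD]
    ring

theorem degD_nonneg {A : Dv k M} (h : ∀ w, 0 ≤ A w) : 0 ≤ degD A := by
  unfold degD
  exact Finset.sum_nonneg (fun w _ => h w)

/-- Hurwitz inequality. -/
theorem hurwitz_le [IsAlgClosed k] (hN : IsFunctionField k L) (hM : IsFunctionField k M)
    [Algebra.IsSeparable L M] : Module.finrank L M * cdeg hN ≤ cdeg hM := by
  obtain ⟨d, h1, -, h3⟩ := hurwitz hN hM
  have : 0 ≤ degD d := by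
    apply degD_nonneg
    intro w
    have := h1 w
    have := ram_pos hN w
    omega
  omega

/-- the ramification places are finite in number, with an explicit bound -/
theorem hurwitz_ram [IsAlgClosed k] (hN : IsFunctionField k L) (hM : IsFunctionField k M)
    [Algebra.IsSeparable L M] (S : Finset (Place k M)) :
    Module.finrank L M * cdeg hN + ∑ w ∈ S, ((ram hN w : ℤ) - 1) ≤ cdeg hM := by
  classical
  obtain ⟨d, h1, -, h3⟩ := hurwitz hN hM
  have h0 : ∀ w, 0 ≤ d w := by
    intro w
    have := h1 w
    have := ram_pos hN w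
    omega
  have h4 : ∑ w ∈ S, ((ram hN w : ℤ) - 1) ≤ degD d := by
    rw [degD_eq_sum d (d.support ∪ S) Finset.subset_union_left]
    calc ∑ w ∈ S, ((ram hN w : ℤ) - 1) ≤ ∑ w ∈ S, d w := Finset.sum_le_sum (fun w _ => h1 w)
      _ ≤ ∑ w ∈ d.support ∪ S, d w :=
          Finset.sum_le_sum_of_subset_of_nonneg Finset.subset_union_right (fun w _ _ => h0 w)
  omega

end tower

section endo

variable {k L : Type} [Field k] [Field L] [Algebra k L]

theorem cdeg_le_of_equiv [IsAlgClosed k] {L' : Type} [Field L'] [Algebra k L']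
    (hN : IsFunctionField k L) (hN' : IsFunctionField k L') (e : L ≃ₐ[k] L') :
    cdeg hN ≤ cdeg hN' := by
  letI : Algebra L L' := e.toAlgHom.toRingHom.toAlgebra
  haveI : IsScalarTower k L L' := IsScalarTower.of_algebraMap_eq (fun x => (e.commutes x).symm)
  have hsurj : Function.Surjective (algebraMap L L') := e.surjective
  let f : L ≃ₗ[L] L' := LinearEquiv.ofBijective (Algebra.linearMap L L')
    ⟨(algebraMap L L').injective, hsurj⟩
  haveI : FiniteDimensional L L' := Module.Finite.equiv f
  haveI : Algebra.IsSeparable L L' := by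
    refine ⟨fun x => ?_⟩
    obtain ⟨y, rfl⟩ := hsurj x
    exact isSeparable_algebraMap y
  have h1 : Module.finrank L L' = 1 := by
    rw [← f.finrank_eq]
    exact Module.finrank_self L
  have := hurwitz_le hN hN'
  rw [h1] at this
  simpa using this

theorem cdeg_eq_of_equiv [IsAlgClosed k] {L' : Type} [Field L'] [Algebra k L']
    (hN : IsFunctionField k L) (hN' : IsFunctionField k L') (e : L ≃ₐ[k] L') :
    cdeg hN = cdeg hN' :=
  le_antisymm (cdeg_le_of_equiv hN hN' e) (cdeg_le_of_equiv hN' hN e.symm)

/-- A subfield `E` of `L` with `L / E` finite separable, isomorphic to `L`. -/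
theorem mul_cdeg_le [IsAlgClosed k] (hN : IsFunctionField k L) (E : IntermediateField k L)
    (e : L ≃ₐ[k] E) [FiniteDimensional E L] [Algebra.IsSeparable E L] :
    Module.finrank E L * cdeg hN ≤ cdeg hN := by
  have hE : IsFunctionField k E := by
    refine ⟨?_, ?_⟩
    · haveI := hN.1
      exact Algebra.EssFiniteType.of_surjective e.toAlgHom e.surjective
    · rw [← hN.2]
      exact (e.trdeg_eq).symm
  rw [cdeg_eq_of_equiv hN hE e]
  have h2 := hurwitz_le hE hN
  rwa [← cdeg_eq_of_equiv hN hE e] at h2 ⊢

/-- A separable endomorphism of degree at least two forces `cdeg ≤ 0`. -/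
theorem cdeg_nonpos_of_endo [IsAlgClosed k] (hN : IsFunctionField k L) (φ : L →ₐ[k] L)
    [FiniteDimensional φ.fieldRange L] [Algebra.IsSeparable φ.fieldRange L]
    (hn : 2 ≤ Module.finrank φ.fieldRange L) : cdeg hN ≤ 0 := by
  have e : L ≃ₐ[k] φ.fieldRange := AlgEquiv.ofInjectiveField φ
  have h1 := mul_cdeg_le hN φ.fieldRange e
  have h3 : (2 : ℤ) ≤ Module.finrank φ.fieldRange L := by exact_mod_cast hn
  nlinarith

end endo

section rational

variable {k L : Type} [Field k] [Field L] [Algebra k L]

theorem val_eq_exp_of_ord {v : Place k L} {x : L} (hx : x ≠ 0) {n : ℤ} (h : v.ord x = n) :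
    v.val x = WithZero.exp (-n) := by
  have h0 : v.val x ≠ 0 := by simpa using hx
  rw [← h, Place.ord, neg_neg, WithZero.exp_log h0]

/-- The rational function field has a canonical divisor of degree `-2`. -/
theorem cdeg_rational [IsAlgClosed k] (hN : IsFunctionField k L) (t : L) (h : k⟮t⟯ = ⊤) :
    cdeg hN = -2 := by
  have ht : Transcendental k t := by
    intro hal
    have h1 : Algebra.IsAlgebraic k k⟮t⟯ :=
      IntermediateField.isAlgebraic_adjoin_simple hal.isIntegral
    rw [h] at h1
    haveI : Algebra.IsAlgebraic k L :=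
      (IntermediateField.topEquiv (F := k) (E := L)).isAlgebraic_iff.1 h1
    have h2 := hN.2
    rw [trdeg_eq_zero (R := k) (A := L)] at h2
    exact zero_ne_one h2
  have ht0 := transcendental_ne_zero ht
  haveI : Algebra.IsSeparable k⟮t⟯ L := by
    refine ⟨fun x => ?_⟩
    have hx : x ∈ k⟮t⟯ := by rw [h]; exact mem_top
    exact isSeparable_algebraMap (⟨x, hx⟩ : k⟮t⟯)
  obtain ⟨D, hD⟩ := exists_deriv t ht
  have hne : D ≠ 0 := by
    rintro rfl
    simp at hD
  obtain ⟨S, hS, hsum, -⟩ := hN.zeros t⁻¹ (transcendental_inv ht)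
  have hs0 : t⁻¹ ≠ 0 := inv_ne_zero ht0
  have hfin : Module.finrank k⟮t⁻¹⟯ L = 1 := by
    rw [finrank_inv, h]
    exact IntermediateField.finrank_top
  simp only [deg_eq_one hN, hfin, Nat.cast_one, mul_one] at hsum
  have hpos : ∀ v ∈ S, 1 ≤ v.ord t⁻¹ := by
    intro v hv
    have := (v.ord_pos_iff hs0).2 ((hS v).1 hv)
    omega
  have hone : ∀ v ∈ S, v.ord t⁻¹ = 1 := by
    intro v hv
    have h1 : v.ord t⁻¹ ≤ ∑ v ∈ S, v.ord t⁻¹ :=
      Finset.single_le_sum (f := fun v : Place k L => v.ord t⁻¹)
        (fun w hw => (zero_le_one).trans (hpos w hw)) hv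
    have := hpos v hv
    omega
  have h1 : ∀ v ∈ S, canD hN D v = -2 * v.ord t⁻¹ := by
    intro v hv
    have hu : v.val t⁻¹ = WithZero.exp (-1 : ℤ) := val_eq_exp_of_ord hs0 (hone v hv)
    rw [canD_apply hN hne, ← ord_D_pi v D hN hu, Derivation.leibniz_inv, hD, smul_eq_mul, mul_one]
    have h2 : v.ord (-(t⁻¹ ^ 2)) = 2 * v.ord t⁻¹ := by
      rw [Place.ord, Valuation.map_neg, map_pow, WithZero.log_pow, Place.ord]
      simp
    rw [h2]
    ring
  have h2 : (canD hN D).support ⊆ S := by
    intro v hv
    by_contra hvS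
    rw [Finsupp.mem_support_iff, canD_apply hN hne] at hv
    apply hv
    rw [hS, not_lt, map_inv₀] at hvS
    have hvt : v.val t ≤ 1 := by
      have h00 : v.val t ≠ 0 := by simpa using ht0
      exact (one_le_inv₀ (zero_lt_iff.2 h00)).1 hvS
    obtain ⟨c, hc⟩ := exists_res_val hN v t hvt
    have hcne : t - algebraMap k L c ≠ 0 := by
      intro h0
      apply ht
      rw [sub_eq_zero.1 h0]
      exact isAlgebraic_algebraMap c
    have h3 := ord_gen_eq_one hN t ht h c v ((v.ord_pos_iff hcne).2 hc)
    have hu : v.val (t - algebraMap k L c) = WithZero.exp (-1 : ℤ) := val_eq_exp_of_ord hcne h3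
    rw [← ord_D_pi v D hN hu, map_sub, Derivation.map_algebraMap, sub_zero, hD, v.ord_one,
      neg_zero]
  rw [← degD_canD hN hne, degD_eq_sum _ S h2, Finset.sum_congr rfl h1, ← Finset.mul_sum, hsum]
  norm_num

end rational

end Pool.Agent.Helper31.RRK
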